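import Mathlib

/-!
Runs of a machine with one two-way infinite tape and an arbitrary set of states: the entries of the
head into the half lines on the right of a cell.
-/

set_option autoImplicit false

namespace Pool.Agent.K9h4.HS

open Finset

variable {σ Γ β : Type}

/-- a run of a deterministic machine with one tape, blank in the beginning -/
structure Traj (nx : σ → Γ → σ) (wr : σ → Γ → Γ) (mv : σ → Γ → ℤ) (ou : σ → Γ → Option β) (bl : Γ)
    (st : ℕ → σ) (pos : ℕ → ℤ) (tp : ℕ → ℤ → Γ) (o : ℕ → Option β) : Prop where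
  mv_le : ∀ q g, |mv q g| ≤ 1
  pos0 : pos 0 = 0
  tp0 : ∀ z, tp 0 z = bl
  st_succ : ∀ t, st (t + 1) = nx (st t) (tp t (pos t))
  pos_succ : ∀ t, pos (t + 1) = pos t + mv (st t) (tp t (pos t))
  tp_succ : ∀ t z, tp (t + 1) z = if z = pos t then wr (st t) (tp t (pos t)) else tp t z
  out_eq : ∀ t, o t = ou (st t) (tp t (pos t))

/-- the states in which the head enters the half line of the cells `≥ u`, up to time `t` -/
def ent (st : ℕ → σ) (pos : ℕ → ℤ) (u : ℤ) : ℕ → List σ
  | 0 => []
  | t + 1 => if pos t < u ∧ u ≤ pos (t + 1) then ent st pos u t ++ [st (t + 1)]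
      else ent st pos u t

/-- the time spent on the right before time `t` -/
def tr (pos : ℕ → ℤ) (u : ℤ) (t : ℕ) : ℕ := ((range t).filter (fun i => u ≤ pos i)).card

theorem tr_succ_of_le {pos : ℕ → ℤ} {u : ℤ} {t : ℕ} (h : u ≤ pos t) :
    tr pos u (t + 1) = tr pos u t + 1 := by
  unfold tr
  rw [range_add_one, filter_insert, if_pos h, card_insert_of_notMem (by simp)]

theorem tr_succ_of_lt {pos : ℕ → ℤ} {u : ℤ} {t : ℕ} (h : pos t < u) :
    tr pos u (t + 1) = tr pos u t := by
  unfold tr
  rw [range_add_one, filter_insert, if_neg (by omega)]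

/-- equal situations on the right of `u` and on the right of `v` -/
def Rel (st : ℕ → σ) (pos : ℕ → ℤ) (tp : ℕ → ℤ → Γ) (u v : ℤ) (t s : ℕ) : Prop :=
  st t = st s ∧ pos t - u = pos s - v ∧ ∀ z, 0 ≤ z → tp t (u + z) = tp s (v + z)

namespace Traj

variable {nx : σ → Γ → σ} {wr : σ → Γ → Γ} {mv : σ → Γ → ℤ} {ou : σ → Γ → Option β} {bl : Γ}
  {st : ℕ → σ} {pos : ℕ → ℤ} {tp : ℕ → ℤ → Γ} {o : ℕ → Option β}
  (H : Traj nx wr mv ou bl st pos tp o)

include H

theorem pos_le (t : ℕ) : pos (t + 1) ≤ pos t + 1 := by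
  have h := H.mv_le (st t) (tp t (pos t))
  rw [H.pos_succ]
  have := (abs_le.1 h).2
  omega

theorem le_pos (t : ℕ) : pos t - 1 ≤ pos (t + 1) := by
  have h := H.mv_le (st t) (tp t (pos t))
  rw [H.pos_succ]
  have := (abs_le.1 h).1
  omega

omit H in
theorem rel_symm {u v : ℤ} {t s : ℕ} (h : Rel st pos tp u v t s) : Rel st pos tp v u s t :=
  ⟨h.1.symm, h.2.1.symm, fun z hz => (h.2.2 z hz).symm⟩

theorem rel_step {u v : ℤ} {t s : ℕ} (h : Rel st pos tp u v t s) (hu : u ≤ pos t) :
    Rel st pos tp u v (t + 1) (s + 1) ∧ o t = o s := by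
  obtain ⟨h1, h2, h3⟩ := h
  have hz : tp t (pos t) = tp s (pos s) := by
    have := h3 (pos t - u) (by omega)
    rwa [show u + (pos t - u) = pos t by ring, show v + (pos t - u) = pos s by omega] at this
  refine ⟨⟨?_, ?_, ?_⟩, ?_⟩
  · rw [H.st_succ, H.st_succ, h1, hz]
  · rw [H.pos_succ, H.pos_succ, h1, hz]
    omega
  · intro z hz0
    rw [H.tp_succ, H.tp_succ, h1, hz]
    by_cases h4 : u + z = pos t
    · rw [if_pos h4, if_pos (by omega)]
    · rw [if_neg h4, if_neg (by omega)]
      exact h3 z hz0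
  · rw [H.out_eq, H.out_eq, h1, hz]

theorem rel_run {u v : ℤ} {t s : ℕ} (h : Rel st pos tp u v t s) (n : ℕ)
    (hu : ∀ i, i < n → u ≤ pos (t + i)) :
    Rel st pos tp u v (t + n) (s + n) ∧ ∀ i, i < n → o (t + i) = o (s + i) := by
  induction n with
  | zero => exact ⟨h, fun i hi => absurd hi (Nat.not_lt_zero i)⟩
  | succ n ih =>
    obtain ⟨h1, h2⟩ := ih (fun i hi => hu i (by omega))
    obtain ⟨h3, h4⟩ := H.rel_step h1 (hu n (by omega))
    refine ⟨h3, fun i hi => ?_⟩
    rcases Nat.lt_succ_iff_lt_or_eq.1 hi with h5 | h5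
    · exact h2 i h5
    · rw [h5]; exact h4

theorem last_entry {u : ℤ} (hu : 1 ≤ u) {t : ℕ} (ht : u ≤ pos t) :
    ∃ e, e < t ∧ pos e < u ∧ pos (e + 1) = u ∧ ∀ i, e + 1 ≤ i → i ≤ t → u ≤ pos i := by
  induction t with
  | zero =>
    rw [H.pos0] at ht
    omega
  | succ t ih =>
    rcases lt_or_ge (pos t) u with h | h
    · refine ⟨t, by omega, h, ?_, ?_⟩
      · have := H.pos_le t
        omega
      · intro i h1 h2
        rw [show i = t + 1 by omega]
        exact ht
    · obtain ⟨e, h1, h2, h3, h4⟩ := ih h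
      refine ⟨e, by omega, h2, h3, fun i h5 h6 => ?_⟩
      rcases Nat.lt_or_ge t i with h7 | h7
      · rw [show i = t + 1 by omega]
        exact ht
      · exact h4 i h5 h7

omit H in
theorem ent_succ_of_le {u : ℤ} {t : ℕ} (h : u ≤ pos t) : ent st pos u (t + 1) = ent st pos u t := by
  rw [ent, if_neg (by omega)]

omit H in
theorem ent_succ_of_lt {u : ℤ} {t : ℕ} (h : pos (t + 1) < u) :
    ent st pos u (t + 1) = ent st pos u t := by
  rw [ent, if_neg (by omega)]

omit H in
theorem ent_entry {u : ℤ} {e : ℕ} (h1 : pos e < u) (h2 : u ≤ pos (e + 1)) :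
    ent st pos u (e + 1) = ent st pos u e ++ [st (e + 1)] := by
  rw [ent, if_pos ⟨h1, h2⟩]

omit H in
theorem ent_inside {u : ℤ} {e n : ℕ} (h : ∀ i, i < n → u ≤ pos (e + i)) :
    ent st pos u (e + n) = ent st pos u e := by
  induction n with
  | zero => rfl
  | succ n ih =>
    rw [← Nat.add_assoc, ent_succ_of_le (h n (by omega)), ih (fun i hi => h i (by omega))]

omit H in
theorem tr_inside {u : ℤ} {e n : ℕ} (h : ∀ i, i < n → u ≤ pos (e + i)) :
    tr pos u (e + n) = tr pos u e + n := by
  induction n with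
  | zero => rfl
  | succ n ih =>
    rw [← Nat.add_assoc, tr_succ_of_le (h n (by omega)), ih (fun i hi => h i (by omega))]
    omega

/-- the entries determine what happens on the right -/
theorem outside {u v : ℤ} (hu : 1 ≤ u) (hv : 1 ≤ v) : ∀ n t s : ℕ, t + s ≤ n →
    ent st pos u t = ent st pos v s → pos t < u → pos s < v →
    (∀ z, 0 ≤ z → tp t (u + z) = tp s (v + z)) ∧ tr pos u t = tr pos v s := by
  intro n
  induction n with
  | zero =>
    intro t s hts _ _ _
    obtain rfl : t = 0 := by omega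
    obtain rfl : s = 0 := by omega
    exact ⟨fun z _ => by rw [H.tp0, H.tp0], rfl⟩
  | succ n ih =>
    intro t s hts he htu hsv
    by_cases ht : ∃ t', t = t' + 1 ∧ pos t' < u
    · obtain ⟨t', rfl, h1⟩ := ht
      rw [ent_succ_of_lt htu] at he
      obtain ⟨h2, h3⟩ := ih t' s (by omega) he h1 hsv
      refine ⟨fun z hz => ?_, by rw [tr_succ_of_lt h1, h3]⟩
      rw [H.tp_succ, if_neg (by omega)]
      exact h2 z hz
    by_cases hs : ∃ s', s = s' + 1 ∧ pos s' < v
    · obtain ⟨s', rfl, h1⟩ := hs
      rw [ent_succ_of_lt hsv] at he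
      obtain ⟨h2, h3⟩ := ih t s' (by omega) he htu h1
      refine ⟨fun z hz => ?_, by rw [tr_succ_of_lt h1, h3]⟩
      rw [H.tp_succ, if_neg (by omega)]
      exact h2 z hz
    push Not at ht hs
    rcases Nat.eq_zero_or_pos t with h0 | h0
    · subst h0
      rcases Nat.eq_zero_or_pos s with h1 | h1
      · subst h1
        exact ⟨fun z _ => by rw [H.tp0, H.tp0], rfl⟩
      · exfalso
        obtain ⟨s', rfl⟩ : ∃ s', s = s' + 1 := ⟨s - 1, by omega⟩
        have h2 := hs s' rfl
        obtain ⟨e, he1, he2, he3, he4⟩ := H.last_entry hv h2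
        have h3 : ent st pos v (s' + 1) = ent st pos v (e + 1) := by
          rw [show s' + 1 = (e + 1) + (s' - e) by omega]
          exact ent_inside (fun i hi => he4 _ (by omega) (by omega))
        rw [h3, ent_entry he2 he3.ge] at he
        simp [ent] at he
    rcases Nat.eq_zero_or_pos s with h1 | h1
    · subst h1
      exfalso
      obtain ⟨t', rfl⟩ : ∃ t', t = t' + 1 := ⟨t - 1, by omega⟩
      have h2 := ht t' rfl
      obtain ⟨e, he1, he2, he3, he4⟩ := H.last_entry hu h2
      have h3 : ent st pos u (t' + 1) = ent st pos u (e + 1) := by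
        rw [show t' + 1 = (e + 1) + (t' - e) by omega]
        exact ent_inside (fun i hi => he4 _ (by omega) (by omega))
      rw [h3, ent_entry he2 he3.ge] at he
      simp [ent] at he
    obtain ⟨t', rfl⟩ : ∃ t', t = t' + 1 := ⟨t - 1, by omega⟩
    obtain ⟨s', rfl⟩ : ∃ s', s = s' + 1 := ⟨s - 1, by omega⟩
    obtain ⟨e, he1, he2, he3, he4⟩ := H.last_entry hu (ht t' rfl)
    obtain ⟨f, hf1, hf2, hf3, hf4⟩ := H.last_entry hv (hs s' rfl)
    have h3 : ent st pos u (t' + 1) = ent st pos u (e + 1) := by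
      rw [show t' + 1 = (e + 1) + (t' - e) by omega]
      exact ent_inside (fun i hi => he4 _ (by omega) (by omega))
    have h4 : ent st pos v (s' + 1) = ent st pos v (f + 1) := by
      rw [show s' + 1 = (f + 1) + (s' - f) by omega]
      exact ent_inside (fun i hi => hf4 _ (by omega) (by omega))
    rw [h3, h4, ent_entry he2 he3.ge, ent_entry hf2 hf3.ge] at he
    obtain ⟨h5, h6⟩ := List.append_inj' he rfl
    have h6' : st (e + 1) = st (f + 1) := by simpa using h6
    obtain ⟨h7, h8⟩ := ih e f (by omega) h5 he2 hf2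
    have hrel : Rel st pos tp u v (e + 1) (f + 1) := by
      refine ⟨h6', by omega, fun z hz => ?_⟩
      rw [H.tp_succ, H.tp_succ, if_neg (by omega), if_neg (by omega)]
      exact h7 z hz
    have hab : t' - e = s' - f := by
      apply le_antisymm
      · by_contra hlt
        push Not at hlt
        obtain ⟨⟨_, h9, _⟩, _⟩ := H.rel_run (rel_symm hrel) (s' - f)
          (fun i hi => hf4 _ (by omega) (by omega))
        rw [show f + 1 + (s' - f) = s' + 1 by omega] at h9
        have := he4 (e + 1 + (s' - f)) (by omega) (by omega)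
        omega
      · by_contra hlt
        push Not at hlt
        obtain ⟨⟨_, h9, _⟩, _⟩ := H.rel_run hrel (t' - e)
          (fun i hi => he4 _ (by omega) (by omega))
        rw [show e + 1 + (t' - e) = t' + 1 by omega] at h9
        have := hf4 (f + 1 + (t' - e)) (by omega) (by omega)
        omega
    obtain ⟨⟨_, _, h9⟩, _⟩ := H.rel_run hrel (t' - e) (fun i hi => he4 _ (by omega) (by omega))
    rw [show e + 1 + (t' - e) = t' + 1 by omega, show f + 1 + (t' - e) = s' + 1 by omega] at h9
    refine ⟨h9, ?_⟩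
    rw [show t' + 1 = (e + 1) + (t' - e) by omega, show s' + 1 = (f + 1) + (s' - f) by omega,
      tr_inside (fun i hi => he4 _ (by omega) (by omega)),
      tr_inside (fun i hi => hf4 _ (by omega) (by omega)), tr_succ_of_lt he2, tr_succ_of_lt hf2,
      h8, hab]

/-- the situations after the last entries -/
theorem inside {u v : ℤ} (hu : 1 ≤ u) (hv : 1 ≤ v) {t s : ℕ}
    (he : ent st pos u t = ent st pos v s) {e f : ℕ}
    (he1 : e < t) (he2 : pos e < u) (he3 : pos (e + 1) = u)
    (he4 : ∀ i, e + 1 ≤ i → i ≤ t → u ≤ pos i)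
    (hf1 : f < s) (hf2 : pos f < v) (hf3 : pos (f + 1) = v)
    (hf4 : ∀ i, f + 1 ≤ i → i ≤ s → v ≤ pos i) : Rel st pos tp u v (e + 1) (f + 1) := by
  have h3 : ent st pos u t = ent st pos u (e + 1) := by
    rw [show t = (e + 1) + (t - (e + 1)) by omega]
    exact ent_inside (fun i hi => he4 _ (by omega) (by omega))
  have h4 : ent st pos v s = ent st pos v (f + 1) := by
    rw [show s = (f + 1) + (s - (f + 1)) by omega]
    exact ent_inside (fun i hi => hf4 _ (by omega) (by omega))
  rw [h3, h4, ent_entry he2 he3.ge, ent_entry hf2 hf3.ge] at he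
  obtain ⟨h5, h6⟩ := List.append_inj' he rfl
  have h6' : st (e + 1) = st (f + 1) := by simpa using h6
  obtain ⟨h7, h8⟩ := H.outside hu hv (e + f) e f le_rfl h5 he2 hf2
  refine ⟨h6', by omega, fun z hz => ?_⟩
  rw [H.tp_succ, H.tp_succ, if_neg (by omega), if_neg (by omega)]
  exact h7 z hz

omit H in
theorem ent_eq_nil {u : ℤ} {t : ℕ} (h : ∀ i, i ≤ t → pos i < u) : ent st pos u t = [] := by
  induction t with
  | zero => rfl
  | succ t ih =>
    rw [ent_succ_of_lt (h _ le_rfl)]
    exact ih (fun i hi => h i (by omega))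

theorem ent_ne_nil {u : ℤ} (hu : 1 ≤ u) {i t : ℕ} (hi : i ≤ t) (h : u ≤ pos i) :
    ent st pos u t ≠ [] := by
  obtain ⟨e, he1, he2, he3, he4⟩ := H.last_entry hu h
  have h1 : ∀ n, ent st pos u (e + 1 + n) ≠ [] := by
    intro n
    induction n with
    | zero => rw [Nat.add_zero, ent_entry he2 he3.ge]; simp
    | succ n ih =>
      rw [← Nat.add_assoc, ent]
      split_ifs
      · simp
      · exact ih
  have h2 := h1 (t - (e + 1))
  rwa [show e + 1 + (t - (e + 1)) = t by omega] at h2

/-- different entries on the right of the head -/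
theorem ne_of_right {u v : ℤ} (hu : 1 ≤ u) (huv : u < v) {t : ℕ} (ht : pos t < u)
    {i : ℕ} (hi : i ≤ t) (h : v ≤ pos i) : ent st pos u t ≠ ent st pos v t := by
  intro he
  obtain ⟨_, h1⟩ := H.outside hu (by omega) (t + t) t t le_rfl he ht (by omega)
  obtain ⟨e, he1, he2, he3, he4⟩ := H.last_entry hu (huv.le.trans h)
  have h2 : ((range t).filter (fun i => v ≤ pos i)) ⊂ ((range t).filter (fun i => u ≤ pos i)) := by
    rw [ssubset_iff_of_subset]
    · refine ⟨e + 1, ?_, ?_⟩
      · rw [mem_filter, mem_range]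
        refine ⟨?_, he3.ge⟩
        rcases Nat.lt_or_ge (e + 1) t with h3 | h3
        · exact h3
        · exfalso
          have : e + 1 = t := by omega
          rw [this] at he3
          omega
      · rw [mem_filter]
        rintro ⟨_, h4⟩
        omega
    · intro j hj
      rw [mem_filter] at hj ⊢
      exact ⟨hj.1, huv.le.trans hj.2⟩
  have h3 := card_lt_card h2
  unfold tr at h1
  omega

/-- the total number of entries -/
theorem sum_ent_le (U : Finset ℤ) (t : ℕ) : ∑ u ∈ U, (ent st pos u t).length ≤ t := by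
  induction t with
  | zero => simp [ent]
  | succ t ih =>
    have h1 : ∀ u ∈ U, (ent st pos u (t + 1)).length ≤
        (ent st pos u t).length + if u = pos (t + 1) then 1 else 0 := by
      intro u _
      rw [ent]
      split_ifs with h2 h3 h3
      · simp
      · exfalso
        have := H.pos_le t
        omega
      · simp
      · simp
    refine (sum_le_sum h1).trans ?_
    rw [sum_add_distrib, sum_ite_eq']
    split_ifs <;> omega

omit H in
theorem mem_ent {u : ℤ} {t : ℕ} {q : σ} (h : q ∈ ent st pos u t) : ∃ i, i ≤ t ∧ st i = q := by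
  induction t with
  | zero => simp [ent] at h
  | succ t ih =>
    rw [ent] at h
    split_ifs at h with h1
    · rw [List.mem_append, List.mem_singleton] at h
      rcases h with h | h
      · obtain ⟨i, h2, h3⟩ := ih h
        exact ⟨i, by omega, h3⟩
      · exact ⟨t + 1, le_rfl, h.symm⟩
    · obtain ⟨i, h2, h3⟩ := ih h
      exact ⟨i, by omega, h3⟩

end Traj

end Pool.Agent.K9h4.HS
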