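import Pool.Agent.K9h4.HS.Core

/-!
Counting: a machine with one tape which writes a sequence without long repetitions needs much time
for its cells.
-/

set_option autoImplicit false

namespace Pool.Agent.K9h4.HS

open Finset

section lists

variable {σ : Type}

open Classical in
theorem short_lists {ι : Type} (A : Finset σ) (U : Finset ι) (e : ι → List σ)
    (hinj : Set.InjOn e U) (hA : ∀ u ∈ U, ∀ q ∈ e u, q ∈ A) (L : ℕ)
    (hL : ∀ u ∈ U, (e u).length ≤ L) : U.card ≤ (A.card + 1) ^ L := by
  have h1 : Fintype.card (Fin L → Option {x // x ∈ A}) = (A.card + 1) ^ L := by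
    rw [Fintype.card_fun, Fintype.card_option, Fintype.card_coe, Fintype.card_fin]
  rw [← h1, ← Finset.card_univ]
  refine Finset.card_le_card_of_injOn
    (fun u => fun i : Fin L => ((e u)[(i : ℕ)]?).bind
      (fun q => if h : q ∈ A then some (⟨q, h⟩ : {x // x ∈ A}) else none))
    (fun _ _ => mem_coe.2 (mem_univ _)) ?_
  intro u hu v hv huv
  apply hinj hu hv
  have hu' : u ∈ U := hu
  have hv' : v ∈ U := hv
  apply List.ext_getElem?
  intro i
  rcases Nat.lt_or_ge i L with hi | hi
  · have h2 := congrFun huv ⟨i, hi⟩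
    simp only at h2
    rcases h3 : (e u)[i]? with _ | q
    · rcases h4 : (e v)[i]? with _ | q'
      · rfl
      · rw [h3, h4] at h2
        have h5 : q' ∈ A := hA v hv' q' (List.mem_of_getElem? h4)
        simp [h5] at h2
    · have h5 : q ∈ A := hA u hu' q (List.mem_of_getElem? h3)
      rcases h4 : (e v)[i]? with _ | q'
      · rw [h3, h4] at h2
        simp [h5] at h2
      · have h6 : q' ∈ A := hA v hv' q' (List.mem_of_getElem? h4)
        rw [h3, h4] at h2
        simp [h5, h6] at h2
        rw [h2]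
  · rw [List.getElem?_eq_none ((hL u hu').trans hi), List.getElem?_eq_none ((hL v hv').trans hi)]

theorem count_nat {ι : Type} (A : Finset σ) (U : Finset ι) (e : ι → List σ)
    (hinj : Set.InjOn e U) (hA : ∀ u ∈ U, ∀ q ∈ e u, q ∈ A) (T : ℕ)
    (hT : ∑ u ∈ U, (e u).length ≤ T) (L : ℕ) :
    L * U.card ≤ L * (A.card + 1) ^ L + T := by
  classical
  have h1 := short_lists A (U.filter (fun u => (e u).length ≤ L)) e
    (hinj.mono (by intro u hu; exact (mem_filter.1 (mem_coe.1 hu)).1))
    (fun u hu => hA u (mem_filter.1 hu).1) L (fun u hu => (mem_filter.1 hu).2)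
  have h2 : L * (U.filter (fun u => ¬ (e u).length ≤ L)).card ≤ T := by
    refine le_trans ?_ hT
    calc L * (U.filter (fun u => ¬ (e u).length ≤ L)).card
        = ∑ u ∈ U.filter (fun u => ¬ (e u).length ≤ L), L := by
          rw [sum_const, smul_eq_mul, mul_comm]
      _ ≤ ∑ u ∈ U.filter (fun u => ¬ (e u).length ≤ L), (e u).length := by
          apply sum_le_sum
          intro u hu
          have := (mem_filter.1 hu).2
          omega
      _ ≤ ∑ u ∈ U, (e u).length :=
          sum_le_sum_of_subset (filter_subset _ _)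
  have h3 := card_filter_add_card_filter_not (s := U) (fun u => (e u).length ≤ L)
  calc L * U.card = L * (U.filter (fun u => (e u).length ≤ L)).card +
        L * (U.filter (fun u => ¬ (e u).length ≤ L)).card := by rw [← h3, mul_add]
    _ ≤ _ := Nat.add_le_add (Nat.mul_le_mul_left _ h1) h2

theorem count_lists {ι : Type} (A : Finset σ) (U : Finset ι) (e : ι → List σ)
    (hinj : Set.InjOn e U) (hne : ∀ u ∈ U, e u ≠ []) (hA : ∀ u ∈ U, ∀ q ∈ e u, q ∈ A) (T : ℕ)
    (hT : ∑ u ∈ U, (e u).length ≤ T) :
    (U.card : ℝ) * Real.log T ≤ 4 * T * (1 + Real.log (A.card + 1)) := by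
  classical
  have hX0 : 0 ≤ Real.log ((A.card : ℝ) + 1) :=
    Real.log_nonneg (by have : (0 : ℝ) ≤ A.card := Nat.cast_nonneg _; linarith)
  rcases U.eq_empty_or_nonempty with hU | ⟨u0, hu0⟩
  · rw [hU]
    simp only [card_empty, CharP.cast_eq_zero, zero_mul]
    positivity
  have hA1 : 1 ≤ A.card := by
    rw [Finset.one_le_card]
    obtain ⟨q, l, hq⟩ := List.exists_cons_of_ne_nil (hne u0 hu0)
    exact ⟨q, hA u0 hu0 q (by rw [hq]; simp)⟩
  have hUT : U.card ≤ T := by
    refine le_trans ?_ hT
    calc U.card = ∑ u ∈ U, 1 := by simp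
      _ ≤ ∑ u ∈ U, (e u).length := by
          apply sum_le_sum
          intro u hu
          exact List.length_pos_iff.2 (hne u hu)
  have hUT' : (U.card : ℝ) ≤ T := by exact_mod_cast hUT
  have hT1 : 1 ≤ T := le_trans (Finset.card_pos.2 ⟨u0, hu0⟩) hUT
  have hT1' : (1 : ℝ) ≤ T := by exact_mod_cast hT1
  set X := Real.log ((A.card : ℝ) + 1) with hX
  set y := Real.log (T : ℝ) with hy
  have hy0 : 0 ≤ y := Real.log_nonneg hT1'
  have hXpos : 0 < X := Real.log_pos (by
    have : (1 : ℝ) ≤ A.card := by exact_mod_cast hA1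
    linarith)
  rcases lt_or_ge y (2 * X) with h | h
  · calc (U.card : ℝ) * y ≤ T * (2 * X) :=
        mul_le_mul hUT' h.le hy0 (by linarith)
      _ ≤ 4 * T * (1 + X) := by nlinarith
  set L := ⌊y / (2 * X)⌋₊ with hL
  have hz1 : 1 ≤ y / (2 * X) := by
    rw [le_div_iff₀ (by linarith)]
    linarith
  have hL1 : 1 ≤ L := Nat.le_floor (by exact_mod_cast hz1)
  have hLle : (L : ℝ) ≤ y / (2 * X) := Nat.floor_le (by positivity)
  have hLge : y / (4 * X) ≤ L := by
    have h1 : y / (2 * X) < L + 1 := Nat.lt_floor_add_one _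
    have h2 : (1 : ℝ) ≤ L := by exact_mod_cast hL1
    have h3 : y / (4 * X) = y / (2 * X) / 2 := by
      field_simp
      ring
    rw [h3]
    linarith
  have hpow : ((A.card : ℝ) + 1) ^ L ≤ Real.sqrt T := by
    have h1 : ((A.card : ℝ) + 1) ^ L = Real.exp (L * X) := by
      rw [mul_comm, Real.exp_mul, hX, Real.exp_log (by positivity), Real.rpow_natCast]
    have h2 : Real.sqrt T = Real.exp (y / 2) := by
      rw [Real.sqrt_eq_rpow, Real.rpow_def_of_pos (by linarith)]
      congr 1
      ring
    rw [h1, h2, Real.exp_le_exp]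
    calc (L : ℝ) * X ≤ y / (2 * X) * X := mul_le_mul_of_nonneg_right hLle hXpos.le
      _ = y / 2 := by field_simp
  have hcount := count_nat A U e hinj hA T hT L
  have hcount' : (L : ℝ) * U.card ≤ L * ((A.card : ℝ) + 1) ^ L + T := by exact_mod_cast hcount
  have hLpos : (0 : ℝ) < L := by exact_mod_cast hL1
  have h1 : (U.card : ℝ) ≤ Real.sqrt T + T / L := by
    rw [← sub_le_iff_le_add', le_div_iff₀ hLpos]
    nlinarith [mul_le_mul_of_nonneg_left hpow hLpos.le]
  have h2 : (T : ℝ) / L * y ≤ 4 * X * T := by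
    rw [div_mul_eq_mul_div, div_le_iff₀ hLpos]
    have h3 : y ≤ L * (4 * X) := by
      rwa [div_le_iff₀ (by linarith)] at hLge
    nlinarith
  have h3 : Real.sqrt T * y ≤ 2 * T := by
    have h4 : y ≤ 2 * Real.sqrt T := by
      have h5 : y = 2 * Real.log (Real.sqrt T) := by
        rw [Real.log_sqrt (by linarith)]
        ring
      have h6 : Real.log (Real.sqrt T) ≤ Real.sqrt T - 1 :=
        Real.log_le_sub_one_of_pos (Real.sqrt_pos.2 (by linarith))
      linarith
    have h5 : Real.sqrt T * Real.sqrt T = T := Real.mul_self_sqrt (by linarith)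
    nlinarith [Real.sqrt_nonneg (T : ℝ)]
  calc (U.card : ℝ) * y ≤ (Real.sqrt T + T / L) * y := mul_le_mul_of_nonneg_right h1 hy0
    _ = Real.sqrt T * y + T / L * y := by ring
    _ ≤ 2 * T + 4 * X * T := add_le_add h3 h2
    _ ≤ 4 * T * (1 + X) := by nlinarith

end lists

section digits

variable {β : Type} (o : ℕ → Option β)

/-- the number of symbols written before time `t` -/
def dg (t : ℕ) : ℕ := ((range t).filter (fun i => (o i).isSome)).card

theorem dg_succ_some {o : ℕ → Option β} {t : ℕ} (h : (o t).isSome) : dg o (t + 1) = dg o t + 1 := by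
  unfold dg
  rw [range_add_one, filter_insert, if_pos h, card_insert_of_notMem (by simp)]

theorem dg_succ_none {o : ℕ → Option β} {t : ℕ} (h : o t = none) : dg o (t + 1) = dg o t := by
  unfold dg
  rw [range_add_one, filter_insert, if_neg (by rw [h]; simp)]

theorem dg_mono : Monotone (dg o) := by
  intro s t h
  unfold dg
  exact card_le_card (filter_subset_filter _ (range_mono h))

theorem dg_le (t : ℕ) : dg o t ≤ t := by
  unfold dg
  exact (card_filter_le _ _).trans (card_range t).le

variable {o}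

theorem dg_run {x y n : ℕ} (h : ∀ i, i < n → o (x + i) = o (y + i)) :
    dg o (x + n) + dg o y = dg o (y + n) + dg o x := by
  induction n with
  | zero => rw [Nat.add_zero, Nat.add_zero]; omega
  | succ n ih =>
    have h1 := ih (fun i hi => h i (by omega))
    have h2 := h n (by omega)
    rw [← Nat.add_assoc, ← Nat.add_assoc]
    rcases h3 : o (y + n) with _ | d
    · rw [dg_succ_none h3, dg_succ_none (h2.trans h3), h1]
    · rw [dg_succ_some (t := x + n) (by rw [h2, h3]; rfl),
        dg_succ_some (t := y + n) (by rw [h3]; rfl)]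
      omega

theorem dg_blocks {a : ℕ → β} (ha : ∀ i d, o i = some d → a (dg o i) = d) {x y n : ℕ}
    (h : ∀ i, i < n → o (x + i) = o (y + i)) (j : ℕ) (hj : dg o y + j < dg o (y + n)) :
    a (dg o x + j) = a (dg o y + j) := by
  induction n with
  | zero => rw [Nat.add_zero] at hj; omega
  | succ n ih =>
    have h' : ∀ i, i < n → o (x + i) = o (y + i) := fun i hi => h i (by omega)
    have h1 := dg_run h'
    have h2 := h n (by omega)
    rw [← Nat.add_assoc] at hj
    rcases h3 : o (y + n) with _ | d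
    · rw [dg_succ_none h3] at hj
      exact ih h' hj
    · rw [dg_succ_some (by rw [h3]; rfl)] at hj
      rcases Nat.lt_or_ge (dg o y + j) (dg o (y + n)) with h4 | h4
      · exact ih h' h4
      · have h5 : dg o y + j = dg o (y + n) := by omega
        have h6 : dg o x + j = dg o (x + n) := by omega
        rw [h5, h6, ha _ _ h3, ha _ _ (h2.trans h3)]

theorem dg_none {x P n : ℕ} (hP : 1 ≤ P) (h0 : dg o x = dg o (x + P))
    (h : ∀ i, i < n → o (x + i) = o (x + P + i)) : dg o (x + P + n) = dg o x := by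
  have h1 : ∀ i, i < n + P → o (x + i) = none := by
    intro i
    induction i using Nat.strong_induction_on with
    | _ i ih =>
      intro hi
      rcases Nat.lt_or_ge i P with h2 | h2
      · by_contra h3
        have h4 : (o (x + i)).isSome := Option.isSome_iff_ne_none.2 h3
        have h5 := dg_succ_some h4
        have h6 := dg_mono o (show x ≤ x + i by omega)
        have h7 := dg_mono o (show x + i + 1 ≤ x + P by omega)
        omega
      · have h3 := h (i - P) (by omega)
        rw [show x + P + (i - P) = x + i by omega] at h3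
        rw [← h3]
        exact ih (i - P) (by omega) (by omega)
  have h2 : ∀ m, m ≤ n + P → dg o (x + m) = dg o x := by
    intro m
    induction m with
    | zero => intro _; rfl
    | succ m ih =>
      intro hm
      rw [← Nat.add_assoc, dg_succ_none (h1 m (by omega)), ih (by omega)]
  have h3 := h2 (P + n) (by omega)
  rwa [← Nat.add_assoc] at h3

end digits

namespace Traj

variable {σ Γ β : Type} {nx : σ → Γ → σ} {wr : σ → Γ → Γ} {mv : σ → Γ → ℤ}
  {ou : σ → Γ → Option β} {bl : Γ} {st : ℕ → σ} {pos : ℕ → ℤ} {tp : ℕ → ℤ → Γ} {o : ℕ → Option β}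

theorem mirror (H : Traj nx wr mv ou bl st pos tp o) :
    Traj nx wr (fun q g => -mv q g) ou bl st (fun t => -pos t) (fun t z => tp t (-z)) o where
  mv_le q g := by rw [abs_neg]; exact H.mv_le q g
  pos0 := by rw [H.pos0, neg_zero]
  tp0 z := H.tp0 _
  st_succ t := by rw [neg_neg]; exact H.st_succ t
  pos_succ t := by rw [neg_neg, H.pos_succ]; ring
  tp_succ t z := by
    rw [neg_neg, H.tp_succ]
    by_cases h : -z = pos t
    · rw [if_pos h, if_pos (by omega)]
    · rw [if_neg h, if_neg (by omega)]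
  out_eq t := by rw [neg_neg]; exact H.out_eq t

theorem right_bound (H : Traj nx wr mv ou bl st pos tp o) (A : Finset σ) {τ T : ℕ} (hτ : τ ≤ T)
    (hA : ∀ t, t ≤ T → st t ∈ A) (a : ℕ → β) (ha : ∀ i d, o i = some d → a (dg o i) = d)
    (n m : ℕ) (hm : 1 ≤ m) (hNR : ∀ p q, p < q → q ≤ n → ∃ t, t < m ∧ a (p + t) ≠ a (q + t))
    (hD : dg o τ ≤ n) (hDT : dg o τ + m ≤ dg o T) (w : ℤ) (hw0 : 0 ≤ w)
    {i0 : ℕ} (hi0 : i0 ≤ τ) (hw : w ≤ pos i0) :
    (w : ℝ) * Real.log T ≤ 8 * T * (1 + Real.log (A.card + 1)) := by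
  classical
  obtain ⟨z, hz, hzmin⟩ := Finset.exists_min_image (Finset.Icc τ T) pos
    ⟨τ, Finset.mem_Icc.2 ⟨le_rfl, hτ⟩⟩
  rw [Finset.mem_Icc] at hz
  have hmin : ∀ i, τ ≤ i → i ≤ T → pos z ≤ pos i := fun i h1 h2 =>
    hzmin i (Finset.mem_Icc.2 ⟨h1, h2⟩)
  set h := pos z with hh
  set U1 := Finset.Icc (1 : ℤ) (min h w) with hU1
  set U2 := Finset.Icc (max 1 (h + 1)) w with hU2
  have hcard : w ≤ U1.card + U2.card := by
    rw [hU1, hU2, Int.card_Icc, Int.card_Icc]
    rcases le_total h w with h1 | h1 <;> rcases le_total 1 (h + 1) with h2 | h2 <;>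
      simp [h1, h2] <;> omega
  -- the first family
  have key1 : ∀ u v : ℤ, 1 ≤ u → u < v → v ≤ min h w →
      ent st pos u T ≠ ent st pos v T := by
    intro u v hu huv hv he
    have hvh : v ≤ h := hv.trans (min_le_left _ _)
    have hvT : v ≤ pos T := hvh.trans (hmin T hτ le_rfl)
    obtain ⟨e, he1, he2, he3, he4⟩ := H.last_entry hu (show u ≤ pos T by omega)
    obtain ⟨f, hf1, hf2, hf3, hf4⟩ := H.last_entry (show 1 ≤ v by omega) hvT
    have hrel := H.inside hu (by omega) he he1 he2 he3 he4 hf1 hf2 hf3 hf4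
    have hfτ : f < τ := by
      by_contra h1
      have := hmin f (by omega) (by omega)
      omega
    have hef : e < f := by
      by_contra h1
      push Not at h1
      rcases Nat.eq_or_lt_of_le h1 with h2 | h2
      · rw [← h2] at he2
        have := H.pos_le f
        omega
      · have := hf4 e (by omega) (by omega)
        omega
    obtain ⟨_, hout⟩ := H.rel_run hrel (T - (f + 1)) (fun i hi => he4 _ (by omega) (by omega))
    have hTf : f + 1 + (T - (f + 1)) = T := by omega
    have hq : dg o (f + 1) ≤ dg o τ := dg_mono o (by omega)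
    rcases Nat.eq_or_lt_of_le (dg_mono o (show e + 1 ≤ f + 1 by omega)) with h1 | h1
    · have h2 : f + 1 = e + 1 + (f - e) := by omega
      have h3 := dg_none (o := o) (x := e + 1) (P := f - e) (n := T - (f + 1)) (by omega)
        (by rw [← h2]; exact h1) (by rw [← h2]; exact hout)
      rw [← h2, hTf] at h3
      omega
    · obtain ⟨t, ht1, ht2⟩ := hNR _ _ h1 (hq.trans hD)
      exact ht2 (dg_blocks ha hout t (by rw [hTf]; omega))
  have hb1 : (U1.card : ℝ) * Real.log T ≤ 4 * T * (1 + Real.log (A.card + 1)) := by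
    refine count_lists A U1 (fun u => ent st pos u T) ?_ ?_ ?_ T (H.sum_ent_le U1 T)
    · intro u hu v hv huv
      rw [mem_coe, hU1, Finset.mem_Icc] at hu hv
      rcases lt_trichotomy u v with h1 | h1 | h1
      · exact absurd huv (key1 u v hu.1 h1 hv.2)
      · exact h1
      · exact absurd huv.symm (key1 v u hv.1 h1 hu.2)
    · intro u hu
      rw [hU1, Finset.mem_Icc] at hu
      exact H.ent_ne_nil hu.1 (hi0.trans hτ) ((hu.2.trans (min_le_right _ _)).trans hw)
    · intro u _ q hq
      obtain ⟨i, hi1, hi2⟩ := mem_ent hq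
      rw [← hi2]
      exact hA i hi1
  have hb2 : (U2.card : ℝ) * Real.log T ≤ 4 * T * (1 + Real.log (A.card + 1)) := by
    refine count_lists A U2 (fun u => ent st pos u z) ?_ ?_ ?_ T
      ((H.sum_ent_le U2 z).trans hz.2)
    · have key2 : ∀ u v : ℤ, max 1 (h + 1) ≤ u → u < v → v ≤ w →
          ent st pos u z ≠ ent st pos v z := by
        intro u v hu huv hv
        exact H.ne_of_right ((le_max_left _ _).trans hu) huv
          (by have := (le_max_right 1 (h + 1)).trans hu; omega) (hi0.trans hz.1) (hv.trans hw)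
      intro u hu v hv huv
      rw [mem_coe, hU2, Finset.mem_Icc] at hu hv
      rcases lt_trichotomy u v with h1 | h1 | h1
      · exact absurd huv (key2 u v hu.1 h1 hv.2)
      · exact h1
      · exact absurd huv.symm (key2 v u hv.1 h1 hu.2)
    · intro u hu
      rw [hU2, Finset.mem_Icc] at hu
      exact H.ent_ne_nil ((le_max_left _ _).trans hu.1) (hi0.trans hz.1) (hu.2.trans hw)
    · intro u _ q hq
      obtain ⟨i, hi1, hi2⟩ := mem_ent hq
      rw [← hi2]
      exact hA i (hi1.trans hz.2)
  have hlog : 0 ≤ Real.log (T : ℝ) := Real.log_natCast_nonneg T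
  have hcard' : (w : ℝ) ≤ U1.card + U2.card := by exact_mod_cast hcard
  calc (w : ℝ) * Real.log T ≤ (U1.card + U2.card) * Real.log T :=
        mul_le_mul_of_nonneg_right hcard' hlog
    _ = U1.card * Real.log T + U2.card * Real.log T := by ring
    _ ≤ 4 * T * (1 + Real.log (A.card + 1)) + 4 * T * (1 + Real.log (A.card + 1)) :=
        add_le_add hb1 hb2
    _ = _ := by ring

/-- the number of cells visited up to time `τ` -/
theorem cells_bound (H : Traj nx wr mv ou bl st pos tp o) (A : Finset σ) {τ T : ℕ} (hτ : τ ≤ T)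
    (hA : ∀ t, t ≤ T → st t ∈ A) (a : ℕ → β) (ha : ∀ i d, o i = some d → a (dg o i) = d)
    (n m : ℕ) (hm : 1 ≤ m) (hNR : ∀ p q, p < q → q ≤ n → ∃ t, t < m ∧ a (p + t) ≠ a (q + t))
    (hD : dg o τ ≤ n) (hDT : dg o τ + m ≤ dg o T) :
    (((range (τ + 1)).image pos).card : ℝ) * Real.log T ≤
      17 * T * (1 + Real.log (A.card + 1)) := by
  classical
  obtain ⟨i, hi, himax⟩ := Finset.exists_max_image (range (τ + 1)) pos ⟨0, by simp⟩
  obtain ⟨j, hj, hjmin⟩ := Finset.exists_min_image (range (τ + 1)) pos ⟨0, by simp⟩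
  rw [mem_range] at hi hj
  have hi0 : 0 ≤ pos i := by
    have := himax 0 (by simp)
    rwa [H.pos0] at this
  have hj0 : pos j ≤ 0 := by
    have := hjmin 0 (by simp)
    rwa [H.pos0] at this
  have h1 := H.right_bound A hτ hA a ha n m hm hNR hD hDT (pos i) hi0 (i0 := i) (by omega) le_rfl
  have h2 := H.mirror.right_bound A hτ hA a ha n m hm hNR hD hDT (-pos j) (by omega) (i0 := j)
    (by omega) le_rfl
  have h3 : ((range (τ + 1)).image pos).card ≤ (pos i - pos j + 1).toNat := by
    have h4 : (range (τ + 1)).image pos ⊆ Finset.Icc (pos j) (pos i) := by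
      intro z hz
      rw [mem_image] at hz
      obtain ⟨k, hk, rfl⟩ := hz
      exact Finset.mem_Icc.2 ⟨hjmin k hk, himax k hk⟩
    refine (card_le_card h4).trans ?_
    rw [Int.card_Icc]
    apply le_of_eq
    congr 1
    ring
  have h4 : (((range (τ + 1)).image pos).card : ℝ) ≤ pos i + -pos j + 1 := by
    have h5 : (((range (τ + 1)).image pos).card : ℤ) ≤ pos i - pos j + 1 := by omega
    have h6 : (((range (τ + 1)).image pos).card : ℝ) ≤ ((pos i - pos j + 1 : ℤ) : ℝ) := by
      exact_mod_cast h5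
    push_cast at h6
    linarith
  have hlog : 0 ≤ Real.log (T : ℝ) := Real.log_natCast_nonneg T
  have hX0 : 0 ≤ Real.log ((A.card : ℝ) + 1) :=
    Real.log_nonneg (by have : (0 : ℝ) ≤ A.card := Nat.cast_nonneg _; linarith)
  have hlT : Real.log (T : ℝ) ≤ T := by
    rcases Nat.eq_zero_or_pos T with h0 | h0
    · rw [h0]; simp
    · have := Real.log_le_sub_one_of_pos (show (0 : ℝ) < T by exact_mod_cast h0)
      linarith
  have hT0 : (0 : ℝ) ≤ T := Nat.cast_nonneg T
  push_cast at h2
  calc (((range (τ + 1)).image pos).card : ℝ) * Real.log T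
      ≤ (pos i + -pos j + 1) * Real.log T := mul_le_mul_of_nonneg_right h4 hlog
    _ = pos i * Real.log T + -pos j * Real.log T + Real.log T := by ring
    _ ≤ 8 * T * (1 + Real.log (A.card + 1)) + 8 * T * (1 + Real.log (A.card + 1)) + T :=
        add_le_add (add_le_add h1 h2) hlT
    _ ≤ 17 * T * (1 + Real.log (A.card + 1)) := by nlinarith

end Traj

end Pool.Agent.K9h4.HS
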