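import Mathlib

/-!
Deterministic multitape Turing machines without input which write digits in base `b`.
-/

set_option autoImplicit false

namespace Pool.Agent.K9h4.HS

/-- A deterministic machine with `k` two-way infinite work tapes, finitely many states and finitely
many tape symbols. In one step it reads its state and the scanned symbols, takes a new state, writes
a symbol on every work tape, moves every head by `-1`, `0` or `1`, and possibly writes one digit
`0, …, b - 1` on its output tape (which it can neither read nor change). There is no input. -/
structure Machine (k b : ℕ) where
  /-- states -/
  Q : Type
  /-- tape symbols -/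
  Γ : Type
  finQ : Fintype Q
  finΓ : Fintype Γ
  /-- the initial state -/
  start : Q
  /-- the blank symbol -/
  blank : Γ
  /-- the new state -/
  next : Q → (Fin k → Γ) → Q
  /-- the symbols which are written on the work tapes -/
  write : Q → (Fin k → Γ) → Fin k → Γ
  /-- the moves of the heads -/
  move : Q → (Fin k → Γ) → Fin k → SignType
  /-- the digit which is written, if any -/
  out : Q → (Fin k → Γ) → Option (Fin b)

attribute [instance] Machine.finQ Machine.finΓ

namespace Machine

variable {k b : ℕ} (M : Machine k b)

/-- configurations: the state, the places of the heads and the contents of the work tapes -/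
structure Config where
  state : M.Q
  head : Fin k → ℤ
  tape : Fin k → ℤ → M.Γ

variable {M}

/-- the scanned symbols -/
def Config.scan (c : M.Config) : Fin k → M.Γ := fun i => c.tape i (c.head i)

variable (M)

/-- one step -/
def step (c : M.Config) : M.Config where
  state := M.next c.state c.scan
  head := fun i => c.head i + (M.move c.state c.scan i : ℤ)
  tape := fun i => Function.update (c.tape i) (c.head i) (M.write c.state c.scan i)

/-- the configuration after `t` steps; the work tapes are blank in the beginning -/
def conf (t : ℕ) : M.Config := M.step^[t] ⟨M.start, fun _ => 0, fun _ _ => M.blank⟩

/-- what the machine has written on its output tape in the first `t` steps -/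
def output : ℕ → List (Fin b)
  | 0 => []
  | t + 1 => output t ++ (M.out (M.conf t).state (M.conf t).scan).toList

/-- the number of cells of the work tape `i` which the head has visited up to time `t` -/
def cells (i : Fin k) (t : ℕ) : ℕ := ((Finset.range (t + 1)).image fun s => (M.conf s).head i).card

/-- the rest of a configuration, without the work tape `j`: the state and, for every other work
tape, the place of its head and its contents -/
def rest (j : Fin k) (c : M.Config) : M.Q × ({i : Fin k // i ≠ j} → ℤ × (ℤ → M.Γ)) :=
  (c.state, fun i => (c.head i, c.tape i))

/-- the number of different rests of configurations, without the work tape `j`, up to time `t` -/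
noncomputable def rests (j : Fin k) (t : ℕ) : ℕ := ((fun s => M.rest j (M.conf s)) '' Set.Iic t).ncard

/-- the machine writes the base `b` digits (after the point) of the real number `y`, all of them -/
def Writes (y : ℝ) : Prop :=
  (∀ (t i : ℕ) (d : Fin b), (M.output t)[i]? = some d →
    ((d : ℕ) : ℤ) = ⌊y * (b : ℝ) ^ (i + 1)⌋ % (b : ℤ)) ∧
    ∀ n : ℕ, ∃ t : ℕ, n ≤ (M.output t).length

/-- for every `n`, the first `n` digits are written after at most `c n` steps -/
def RealTime (c : ℕ) : Prop := ∀ n : ℕ, n ≤ (M.output (c * n)).length

end Machine

end Pool.Agent.K9h4.HS
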