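import Pool.Agent.K9h4.HS.Defs

/-!
Turns of the heads of a multitape machine.
-/

set_option autoImplicit false

namespace Pool.Agent.K9h4.HS.Machine

variable {k b : ℕ} (M : Machine k b)

/-- the move (`-1`, `0` or `1`) of the head of the work tape `i` in step `t` -/
def dir (i : Fin k) (t : ℕ) : ℤ := (M.conf (t + 1)).head i - (M.conf t).head i

/-- The head of the work tape `i` turns in step `t`: it moves, and the last time it moved before
it moved in the other direction. -/
def Turn (i : Fin k) (t : ℕ) : Prop :=
  M.dir i t ≠ 0 ∧ ∃ s, s < t ∧ M.dir i s = -M.dir i t ∧ ∀ u, s < u → u < t → M.dir i u = 0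

/-- the number of turns of the head of the work tape `i` in the first `t` steps -/
noncomputable def turns (i : Fin k) (t : ℕ) : ℕ := {s | s < t ∧ M.Turn i s}.ncard

end Pool.Agent.K9h4.HS.Machine
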