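import Pool.Agent.Y413.DG.Cor

/-!
Integer combinations of sequences which repeat long blocks are not the digits of algebraic
irrational numbers.
-/

set_option autoImplicit false

namespace Pool.Agent.K9h4.HS

open Finset Polynomial Pool.Agent.Y413.DG

/-- `X ^ p - X ^ q` -/
noncomputable def bin (p q : ℕ) : ℤ[X] := X ^ p - X ^ q

theorem bin_ne_zero {p q : ℕ} (h : p < q) : bin p q ≠ 0 := by
  intro h0
  have h1 := congrArg (fun f : ℤ[X] => f.coeff p) h0
  simp only [bin, coeff_sub, coeff_X_pow, coeff_zero, if_true] at h1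
  rw [if_neg (by omega)] at h1
  omega

theorem act_bin (p q : ℕ) (u : ℕ → ℤ) (t : ℕ) : act (bin p q) u t = u (p + t) - u (q + t) := by
  unfold bin
  rw [act_sub, Pi.sub_apply]
  have h : ∀ j : ℕ, act (X ^ j : ℤ[X]) u t = u (j + t) := by
    intro j
    unfold act
    rw [map_pow, aeval_X, sh_pow]
  rw [h, h]

theorem act_zero_of (f : ℤ[X]) (u : ℕ → ℤ) (N t : ℕ) (hf : f.natDegree + t < N)
    (hu : ∀ s, s < N → u s = 0) : act f u t = 0 := by
  rw [act_apply]
  apply Finset.sum_eq_zero
  intro j hj
  rw [hu (j + t) (by have := le_natDegree_of_mem_supp j hj; omega), mul_zero]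

theorem bin_prod {ι : Type} (s : Finset ι) (p q : ι → ℕ) :
    (∏ l ∈ s, bin (p l) (q l)).support.card ≤ 2 ^ s.card ∧
    (∀ j, |(∏ l ∈ s, bin (p l) (q l)).coeff j| ≤ 2 ^ s.card) := by
  classical
  induction s using Finset.induction_on with
  | empty =>
    refine ⟨?_, fun j => ?_⟩
    · rw [prod_empty, card_empty, pow_zero, ← C_1]
      exact (card_le_card (support_C_subset _)).trans (by simp)
    · rw [prod_empty, card_empty, pow_zero, coeff_one]
      split_ifs <;> simp
  | insert l s hl ih =>
    obtain ⟨h1, h2⟩ := ih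
    rw [prod_insert hl, card_insert_of_notMem hl]
    set g := ∏ l ∈ s, bin (p l) (q l) with hg
    have h3 : bin (p l) (q l) * g = g * X ^ p l - g * X ^ q l := by
      unfold bin
      ring
    constructor
    · rw [h3, sub_eq_add_neg]
      refine (card_le_card support_add).trans ?_
      refine (card_union_le _ _).trans ?_
      rw [support_neg]
      have h4 : ∀ n : ℕ, (g * X ^ n).support.card ≤ g.support.card := by
        intro n
        have h5 : (g * X ^ n).support ⊆ g.support.map (addRightEmbedding n) := by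
          intro j hj
          rw [mem_support_iff, coeff_mul_X_pow'] at hj
          split_ifs at hj with h6
          · rw [mem_map]
            exact ⟨j - n, mem_support_iff.2 hj, by simp; omega⟩
          · exact absurd rfl hj
        refine (card_le_card h5).trans ?_
        rw [card_map]
      have h5 := h4 (p l)
      have h6 := h4 (q l)
      rw [pow_succ]
      omega
    · intro j
      rw [h3, coeff_sub]
      have h4 : ∀ n : ℕ, |(g * X ^ n).coeff j| ≤ 2 ^ s.card := by
        intro n
        rw [coeff_mul_X_pow']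
        split_ifs
        · exact h2 _
        · simp
      refine (abs_sub _ _).trans ?_
      have h5 := h4 (p l)
      have h6 := h4 (q l)
      rw [pow_succ]
      linarith

theorem bin_natDegree {p q : ℕ} (h : p < q) : (bin p q).natDegree ≤ q := by
  unfold bin
  refine (natDegree_sub_le _ _).trans ?_
  rw [natDegree_X_pow, natDegree_X_pow]
  omega

theorem natDegree_bin_prod {ι : Type} (s : Finset ι) (p q : ι → ℕ) (n : ℕ)
    (h : ∀ l ∈ s, p l < q l ∧ q l ≤ n) :
    (∏ l ∈ s, bin (p l) (q l)).natDegree ≤ s.card * n := by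
  refine (Polynomial.natDegree_prod_le _ _).trans ?_
  refine (Finset.sum_le_sum (fun l hl => (bin_natDegree (h l hl).1).trans (h l hl).2)).trans ?_
  rw [sum_const, smul_eq_mul]

theorem act_sum_right {ι : Type} (s : Finset ι) (f : ℤ[X]) (c : ι → ℤ) (u : ι → ℕ → ℤ) (t : ℕ) :
    act f (fun i => ∑ l ∈ s, c l * u l i) t = ∑ l ∈ s, c l * act f (u l) t := by
  simp only [act_apply, Finset.mul_sum]
  rw [Finset.sum_comm]
  apply Finset.sum_congr rfl
  intro l _
  apply Finset.sum_congr rfl
  intro j _
  ring

/-- For all large `w` and all `n ≤ C w`: if `∑ c l * y l` is algebraic and irrational then it is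
impossible that for all `l` some two blocks of `(r - 1) n + w` digits of `y l` after places `≤ n`
are equal. -/
theorem no_common_scale (b : ℕ) (hb : 2 ≤ b) (r : ℕ) (y : Fin r → ℝ) (c : Fin r → ℤ)
    (halg : IsAlgebraic ℚ (∑ l, (c l : ℝ) * y l)) (hirr : Irrational (∑ l, (c l : ℝ) * y l))
    (C : ℕ) : ∃ w0 : ℕ, ∀ w, w0 ≤ w → ∀ n, n ≤ C * w →
      (∀ l, ∃ p q : ℕ, p < q ∧ q ≤ n ∧ ∀ t, t < (r - 1) * n + w →
        dg b (y l) (p + t) = dg b (y l) (q + t)) → False := by
  classical
  set x := ∑ l, (c l : ℝ) * y l with hx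
  set z := ∑ l, (c l : ℝ) * Int.fract (y l) with hz
  have hzx : z = x - ((∑ l, c l * ⌊y l⌋ : ℤ) : ℝ) := by
    rw [hz, hx]
    push_cast
    rw [← Finset.sum_sub_distrib]
    apply Finset.sum_congr rfl
    intro l _
    rw [← Int.self_sub_floor]
    ring
  have hzalg : IsAlgebraic ℚ z := by
    rw [hzx]
    exact halg.sub (isAlgebraic_intCast _)
  have hzirr : Irrational z := by
    rw [hzx]
    exact hirr.sub_intCast _
  set d : ℕ → ℤ := fun i => ∑ l, c l * dg b (y l) i with hd
  have hexp : Exp b z d := by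
    unfold Exp
    have h1 : ∀ l : Fin r, HasSum (fun t : ℕ => (c l : ℝ) * ((dg b (y l) t : ℝ) / (b : ℝ) ^ (t + 1)))
        ((c l : ℝ) * Int.fract (y l)) := fun l => (exp_dg b hb (y l)).mul_left _
    have h2 := hasSum_sum (s := (Finset.univ : Finset (Fin r))) (fun l _ => h1 l)
    convert h2 using 1
    funext t
    rw [hd]
    push_cast
    rw [Finset.sum_div]
    apply Finset.sum_congr rfl
    intro l _
    ring
  set B : ℕ := ∑ l, (c l).natAbs * b with hB
  have hdB : ∀ t, |d t| ≤ B := by
    intro t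
    rw [hd, hB]
    push_cast
    refine (Finset.abs_sum_le_sum_abs _ _).trans (Finset.sum_le_sum fun l _ => ?_)
    rw [abs_mul]
    exact mul_le_mul_of_nonneg_left (dg_bound b hb (y l) t) (abs_nonneg _)
  obtain ⟨m0, hm0⟩ := int_rel' b hb (fun _ : Fin 1 => z) (fun _ => hzalg) (indep_one hzirr)
    (fun _ => d) B (fun _ => hdB) (fun _ => hexp) (2 ^ r) (2 ^ r) (r * C)
  refine ⟨m0, fun w hw n hn h => ?_⟩
  choose p q hpq hq heq using h
  refine hm0 w hw (fun _ => ∏ l, bin (p l) (q l)) ?_ ?_ ?_ ?_ ?_
  · intro _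
    have h1 := (bin_prod (Finset.univ : Finset (Fin r)) p q).1
    rwa [Finset.card_univ, Fintype.card_fin] at h1
  · intro _ j
    have h1 := (bin_prod (Finset.univ : Finset (Fin r)) p q).2 j
    rw [Finset.card_univ, Fintype.card_fin] at h1
    exact_mod_cast h1
  · intro _
    have h1 := natDegree_bin_prod (Finset.univ : Finset (Fin r)) p q n
      (fun l _ => ⟨hpq l, hq l⟩)
    rw [Finset.card_univ, Fintype.card_fin] at h1
    refine h1.trans ?_
    rw [mul_assoc]
    exact Nat.mul_le_mul_left _ hn
  · intro h0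
    have h1 : ∏ l, bin (p l) (q l) = 0 := congrFun h0 0
    rw [Finset.prod_eq_zero_iff] at h1
    obtain ⟨l, _, h2⟩ := h1
    exact bin_ne_zero (hpq l) h2
  · intro t ht
    rw [Fin.sum_univ_one, hd, act_sum_right]
    apply Finset.sum_eq_zero
    intro l _
    have h1 : (∏ l, bin (p l) (q l)) =
        (∏ l' ∈ Finset.univ.erase l, bin (p l') (q l')) * bin (p l) (q l) :=
      (Finset.prod_erase_mul _ _ (Finset.mem_univ l)).symm
    rw [h1, act_mul, act_zero_of _ _ ((r - 1) * n + w) t, mul_zero]
    · have h2 := natDegree_bin_prod (Finset.univ.erase l) p q n (fun l' _ => ⟨hpq l', hq l'⟩)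
      rw [Finset.card_erase_of_mem (Finset.mem_univ l), Finset.card_univ, Fintype.card_fin] at h2
      omega
    · intro s hs
      rw [act_bin, heq l s hs, sub_self]

end Pool.Agent.K9h4.HS
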