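import Pool.Agent.K9h4.HS.Tape
import Pool.Agent.K9h4.HS.Sum

/-!
The space which multitape machines use when they write the digits of numbers with an algebraic
irrational integer combination.
-/

set_option autoImplicit false

namespace Pool.Agent.K9h4.HS

open Finset Filter

namespace Machine

variable {k b : ℕ} (M : Machine k b)

theorem dg_le_self (t : ℕ) : (M.output t).length ≤ t := by
  induction t with
  | zero => exact le_rfl
  | succ t ih =>
    have h0 : M.output (t + 1) = M.output t ++ (M.ot t).toList := rfl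
    rw [h0, List.length_append]
    have : (M.ot t).toList.length ≤ 1 := by
      rcases M.ot t with _ | d <;> simp
    omega

/-- the digits of a number as elements of `Fin b` -/
noncomputable def fdg (hb : 2 ≤ b) (y : ℝ) (i : ℕ) : Fin b :=
  ⟨(⌊y * (b : ℝ) ^ (i + 1)⌋ % (b : ℤ)).toNat, by
    have h1 := Int.emod_nonneg ⌊y * (b : ℝ) ^ (i + 1)⌋ (show (b : ℤ) ≠ 0 by omega)
    have h2 := Int.emod_lt_of_pos ⌊y * (b : ℝ) ^ (i + 1)⌋ (show (0 : ℤ) < b by omega)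
    omega⟩

theorem fdg_eq (hb : 2 ≤ b) (y : ℝ) (i : ℕ) :
    ((fdg hb y i : ℕ) : ℤ) = ⌊y * (b : ℝ) ^ (i + 1)⌋ % (b : ℤ) := by
  have h1 := Int.emod_nonneg ⌊y * (b : ℝ) ^ (i + 1)⌋ (show (b : ℤ) ≠ 0 by omega)
  show (((⌊y * (b : ℝ) ^ (i + 1)⌋ % (b : ℤ)).toNat : ℕ) : ℤ) = _
  omega

end Machine

/-- the main theorem -/
theorem main (b : ℕ) (hb : 2 ≤ b) (r : ℕ) (k : Fin r → ℕ) (M : (l : Fin r) → Machine (k l) b)
    (y : Fin r → ℝ) (c : Fin r → ℤ) (hw : ∀ l, (M l).Writes (y l))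
    (halg : IsAlgebraic ℚ (∑ l, (c l : ℝ) * y l)) (hirr : Irrational (∑ l, (c l : ℝ) * y l))
    (ε : ℝ) (hε : 0 < ε) :
    ∀ᶠ n : ℕ in atTop, ∃ l, ∀ (j : Fin (k l)) (τ T : ℕ),
      ((M l).output τ).length ≤ n → (r + ε) * n ≤ ((M l).output T).length →
      ((M l).cells j τ : ℝ) * Real.log T ≤ 17 * T * (1 + Real.log ((M l).rests j T + 1)) := by
  obtain ⟨w0, hw0⟩ := no_common_scale b hb r y c halg hirr ⌈2 / ε⌉₊
  filter_upwards [eventually_ge_atTop ⌈(w0 + 1 : ℝ) / ε⌉₊, eventually_ge_atTop ⌈2 / ε⌉₊] with n hn hn2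
  have hn' : (w0 + 1 : ℝ) ≤ ε * n := by
    have h1 := (Nat.le_ceil ((w0 + 1 : ℝ) / ε)).trans (Nat.cast_le.2 hn)
    rw [div_le_iff₀ hε] at h1
    linarith
  have hn2' : 2 ≤ ε * n := by
    have h1 := (Nat.le_ceil (2 / ε)).trans (Nat.cast_le.2 hn2)
    rw [div_le_iff₀ hε] at h1
    linarith
  set w := ⌊ε * n⌋₊ with hwd
  have hw1 : w0 + 1 ≤ w := Nat.le_floor (by exact_mod_cast hn')
  have hw2 : (w : ℝ) ≤ ε * n := Nat.floor_le (by positivity)
  have hw3 : ε * n < w + 1 := Nat.lt_floor_add_one _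
  have hnw : n ≤ ⌈2 / ε⌉₊ * w := by
    have h1 : (2 : ℝ) / ε ≤ ⌈2 / ε⌉₊ := Nat.le_ceil _
    have h2 : (0 : ℝ) ≤ w := Nat.cast_nonneg w
    have h3 : (n : ℝ) ≤ 2 / ε * w := by
      rw [div_mul_eq_mul_div, le_div_iff₀ hε]
      have h4 : (1 : ℝ) ≤ w := by exact_mod_cast (by omega : 1 ≤ w)
      linarith
    have h4 : (n : ℝ) ≤ ⌈2 / ε⌉₊ * w := h3.trans (mul_le_mul_of_nonneg_right h1 h2)
    exact_mod_cast h4
  obtain ⟨l, hl⟩ := not_forall.1 (hw0 w (by omega) n hnw)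
  refine ⟨l, fun j τ T hτ hT => ?_⟩
  have hr : 1 ≤ r := by
    have := l.2
    omega
  have hT' : n + ((r - 1) * n + w) ≤ ((M l).output T).length := by
    have h1 : n + ((r - 1) * n + w) = r * n + w := by
      conv_rhs => rw [show r = (r - 1) + 1 by omega]
      ring
    rw [h1]
    have h2 : (r : ℝ) * n + w ≤ ((M l).output T).length := by
      refine le_trans ?_ hT
      rw [add_mul]
      linarith
    exact_mod_cast h2
  refine (M l).tape_bound j (Machine.fdg hb (y l)) ?_ n ((r - 1) * n + w) (by omega) ?_ hτ hT'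
  · intro i d hi
    have h2 := (hw l).1 (i + 1) _ d ((M l).output_get i _ d hi rfl)
    rw [← Machine.fdg_eq hb] at h2
    apply Fin.ext
    have h3 : ((d : ℕ) : ℤ) = ((Machine.fdg hb (y l) (dg (M l).ot i) : ℕ) : ℤ) := h2
    omega
  · intro p q hpq hq
    by_contra h2
    apply hl
    refine ⟨p, q, hpq, hq, fun t ht => ?_⟩
    by_contra h3
    apply h2
    refine ⟨t, ht, fun h4 => h3 ?_⟩
    have h5 : ∀ i : ℕ, Pool.Agent.Y413.DG.dg b (y l) i = ((Machine.fdg hb (y l) i : ℕ) : ℤ) :=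
      fun i => (Machine.fdg_eq hb (y l) i).symm
    rw [h5, h5, h4]

end Pool.Agent.K9h4.HS
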