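import Pool.Agent.K9h4.HS.Defs
import Pool.Agent.K9h4.HS.Count

/-!
One work tape of a multitape machine; the other work tapes belong to the state.
-/

set_option autoImplicit false

namespace Pool.Agent.K9h4.HS.Machine

open Finset

variable {k b : ℕ} (M : Machine k b)

theorem conf_succ (t : ℕ) : M.conf (t + 1) = M.step (M.conf t) := by
  simp only [conf, Function.iterate_succ_apply']

/-- the digit written in step `t` -/
def ot (t : ℕ) : Option (Fin b) := M.out (M.conf t).state (M.conf t).scan

theorem length_output (t : ℕ) : (M.output t).length = dg M.ot t := by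
  induction t with
  | zero => rfl
  | succ t ih =>
    have h0 : M.output (t + 1) = M.output t ++ (M.ot t).toList := rfl
    rw [h0, List.length_append, ih]
    rcases h : M.ot t with _ | d
    · rw [dg_succ_none h]
      rfl
    · rw [dg_succ_some (by rw [h]; rfl)]
      rfl

theorem output_get (t i : ℕ) (d : Fin b) (h : M.ot t = some d) (hi : i = dg M.ot t) :
    (M.output (t + 1))[i]? = some d := by
  have h0 : M.output (t + 1) = M.output t ++ (M.ot t).toList := rfl
  rw [h0, h, hi, ← M.length_output t]
  simp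

/-- the states of the machine together with the other tapes -/
def Side (j : Fin k) : Type := M.Q × ({i : Fin k // i ≠ j} → ℤ × (ℤ → M.Γ))

/-- the scanned symbols -/
def Side.scan {M : Machine k b} {j : Fin k} (q : M.Side j) (g : M.Γ) : Fin k → M.Γ := fun i =>
  if h : i = j then g else (q.2 ⟨i, h⟩).2 (q.2 ⟨i, h⟩).1

/-- the side of a configuration -/
def side (j : Fin k) (c : M.Config) : M.Side j := M.rest j c

theorem side_scan (j : Fin k) (c : M.Config) :
    Side.scan (M.side j c) (c.tape j (c.head j)) = c.scan := by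
  funext i
  unfold Side.scan side rest Config.scan
  by_cases h : i = j
  · subst h
    simp
  · simp [h]

/-- the next side -/
def nxS (j : Fin k) (q : M.Side j) (g : M.Γ) : M.Side j :=
  (M.next q.1 (q.scan g), fun i => ((q.2 i).1 + (M.move q.1 (q.scan g) i : ℤ),
    Function.update (q.2 i).2 (q.2 i).1 (M.write q.1 (q.scan g) i)))

theorem side_step (j : Fin k) (c : M.Config) :
    M.side j (M.step c) = M.nxS j (M.side j c) (c.tape j (c.head j)) := by
  unfold nxS
  rw [M.side_scan j c]
  rfl

theorem traj (j : Fin k) : Traj (M.nxS j) (fun q g => M.write q.1 (q.scan g) j)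
    (fun q g => (M.move q.1 (q.scan g) j : ℤ)) (fun q g => M.out q.1 (q.scan g)) M.blank
    (fun t => M.side j (M.conf t)) (fun t => (M.conf t).head j) (fun t => (M.conf t).tape j)
    M.ot where
  mv_le q g := by
    rcases M.move q.1 (q.scan g) j <;> simp
  pos0 := rfl
  tp0 _ := rfl
  st_succ t := by rw [M.conf_succ, M.side_step]
  pos_succ t := by
    rw [M.side_scan j (M.conf t), M.conf_succ]
    rfl
  tp_succ t z := by
    rw [M.side_scan j (M.conf t), M.conf_succ]
    show Function.update ((M.conf t).tape j) ((M.conf t).head j) _ z = _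
    rw [Function.update_apply]
    rfl
  out_eq t := by
    rw [M.side_scan j (M.conf t)]
    rfl

/-- the visited cells -/
def seen (i : Fin k) (T : ℕ) : Finset ℤ := (range (T + 1)).image fun s => (M.conf s).head i

theorem card_seen (i : Fin k) (T : ℕ) : (M.seen i T).card = M.cells i T := rfl

theorem cells_pos (i : Fin k) (T : ℕ) : 1 ≤ M.cells i T := by
  rw [← M.card_seen, Finset.one_le_card]
  exact ⟨_, mem_image_of_mem _ (mem_range.2 (Nat.succ_pos T))⟩

theorem blank_of_not_seen (i : Fin k) (T : ℕ) {t : ℕ} (ht : t ≤ T) {z : ℤ} (hz : z ∉ M.seen i T) :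
    (M.conf t).tape i z = M.blank := by
  induction t with
  | zero => rfl
  | succ t ih =>
    rw [M.conf_succ]
    show Function.update ((M.conf t).tape i) ((M.conf t).head i) _ z = _
    rw [Function.update_of_ne, ih (by omega)]
    rintro rfl
    exact hz (mem_image_of_mem (fun s => (M.conf s).head i) (mem_range.2 (by omega)))

open Classical in
/-- the sides which occur up to time `T` -/
theorem exists_sides (j : Fin k) (T : ℕ) : ∃ A : Finset (M.Side j),
    (∀ t, t ≤ T → M.side j (M.conf t) ∈ A) ∧
    A.card ≤ Fintype.card M.Q *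
      ∏ i : {i : Fin k // i ≠ j}, (M.cells i T * Fintype.card M.Γ ^ M.cells i T) := by
  refine ⟨(range (T + 1)).image fun t => M.side j (M.conf t), fun t ht =>
    mem_image_of_mem _ (mem_range.2 (by omega)), ?_⟩
  have h1 : Fintype.card (M.Q × ((i : {i : Fin k // i ≠ j}) →
      ({z // z ∈ M.seen i T} × ({z // z ∈ M.seen i T} → M.Γ)))) = Fintype.card M.Q *
      ∏ i : {i : Fin k // i ≠ j}, (M.cells i T * Fintype.card M.Γ ^ M.cells i T) := by
    rw [Fintype.card_prod, Fintype.card_pi]
    congr 1
    apply Finset.prod_congr rfl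
    intro i _
    rw [Fintype.card_prod, Fintype.card_fun, Fintype.card_coe, M.card_seen]
  rw [← h1, ← Finset.card_univ]
  refine Finset.card_le_card_of_injOn (fun q => (q.1, fun i =>
    (if h : (q.2 i).1 ∈ M.seen i T then ⟨(q.2 i).1, h⟩ else
      ⟨(M.conf 0).head i, mem_image_of_mem (fun s => (M.conf s).head i)
        (mem_range.2 (Nat.succ_pos T))⟩, fun z => (q.2 i).2 z)))
    (fun _ _ => mem_coe.2 (mem_univ _)) ?_
  intro q hq q' hq' hqq
  rw [mem_coe, mem_image] at hq hq'
  obtain ⟨t, ht, rfl⟩ := hq
  obtain ⟨s, hs, rfl⟩ := hq'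
  rw [mem_range] at ht hs
  have e1 := (Prod.ext_iff.1 hqq).1
  have e2 := (Prod.ext_iff.1 hqq).2
  refine Prod.ext e1 ?_
  funext i
  have e3 := congrFun e2 i
  have e4 := (Prod.ext_iff.1 e3).1
  have e5 := (Prod.ext_iff.1 e3).2
  have m1 : (M.conf t).head i ∈ M.seen i T :=
    mem_image_of_mem (fun s => (M.conf s).head i) (mem_range.2 ht)
  have m2 : (M.conf s).head i ∈ M.seen i T :=
    mem_image_of_mem (fun s => (M.conf s).head i) (mem_range.2 hs)
  refine Prod.ext ?_ ?_
  · have e6 : (⟨(M.conf t).head i, m1⟩ : {z // z ∈ M.seen i T}) = ⟨(M.conf s).head i, m2⟩ := by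
      have e7 : (if h : (M.conf t).head i ∈ M.seen i T then
          (⟨(M.conf t).head i, h⟩ : {z // z ∈ M.seen i T}) else
          ⟨(M.conf 0).head i, mem_image_of_mem (fun s => (M.conf s).head i)
            (mem_range.2 (Nat.succ_pos T))⟩) =
          (if h : (M.conf s).head i ∈ M.seen i T then ⟨(M.conf s).head i, h⟩ else
          ⟨(M.conf 0).head i, mem_image_of_mem (fun s => (M.conf s).head i)
            (mem_range.2 (Nat.succ_pos T))⟩) := e4
      rwa [dif_pos m1, dif_pos m2] at e7
    exact congrArg Subtype.val e6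
  · funext z
    show (M.conf t).tape i z = (M.conf s).tape i z
    by_cases hz : z ∈ M.seen i T
    · exact congrFun e5 ⟨z, hz⟩
    · rw [M.blank_of_not_seen i T (by omega) hz, M.blank_of_not_seen i T (by omega) hz]

open Classical in
/-- the sides which occur up to time `T` -/
theorem exists_rests (j : Fin k) (T : ℕ) : ∃ A : Finset (M.Side j),
    (∀ t, t ≤ T → M.side j (M.conf t) ∈ A) ∧ A.card = M.rests j T := by
  refine ⟨(range (T + 1)).image fun t => M.side j (M.conf t), fun t ht =>
    mem_image_of_mem _ (mem_range.2 (by omega)), ?_⟩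
  rw [rests, ← Set.ncard_coe_finset]
  congr 1
  rw [coe_image, coe_range]
  congr 1
  ext t
  simp

/-- the bound for one tape of a machine which writes a sequence without long repetitions -/
theorem tape_bound (j : Fin k) (a : ℕ → Fin b) (ha : ∀ i d, M.ot i = some d → a (dg M.ot i) = d)
    (n m : ℕ) (hm : 1 ≤ m) (hNR : ∀ p q, p < q → q ≤ n → ∃ t, t < m ∧ a (p + t) ≠ a (q + t))
    {τ T : ℕ} (hD : (M.output τ).length ≤ n) (hDT : n + m ≤ (M.output T).length) :
    (M.cells j τ : ℝ) * Real.log T ≤ 17 * T * (1 + Real.log (M.rests j T + 1)) := by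
  rw [M.length_output] at hD hDT
  have hτT : τ ≤ T := by
    by_contra h
    have := dg_mono M.ot (show T ≤ τ by omega)
    omega
  obtain ⟨A, hA1, hA2⟩ := M.exists_rests j T
  have h1 := (M.traj j).cells_bound A hτT hA1 a ha n m hm hNR hD (by omega)
  rw [hA2] at h1
  exact h1

/-- the number of rests is bounded by the cells of the other tapes -/
theorem rests_le (j : Fin k) (T : ℕ) : M.rests j T ≤ Fintype.card M.Q *
      ∏ i : {i : Fin k // i ≠ j}, (M.cells i T * Fintype.card M.Γ ^ M.cells i T) := by
  classical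
  obtain ⟨A, hA1, hA2⟩ := M.exists_sides j T
  refine le_trans ?_ hA2
  rw [rests, ← Set.ncard_coe_finset A]
  apply Set.ncard_le_ncard _ A.finite_toSet
  rintro _ ⟨t, ht, rfl⟩
  exact hA1 t ht

/-- one tape: the rest is the state -/
theorem rests_one (M : Machine 1 b) (j : Fin 1) (T : ℕ) : M.rests j T ≤ Fintype.card M.Q := by
  refine (M.rests_le j T).trans (le_of_eq ?_)
  have : IsEmpty {i : Fin 1 // i ≠ j} := ⟨fun i => i.2 (Subsingleton.elim _ _)⟩
  rw [Finset.prod_of_isEmpty, mul_one]

end Pool.Agent.K9h4.HS.Machine
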