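import Pool.Agent.K9h4.HS.DefsT
import Pool.Agent.K9h4.HS.Tape

/-!
Machines with one work tape: parts of the run without turns of the head are short.
-/

set_option autoImplicit false

namespace Pool.Agent.K9h4.HS.Machine

open Finset

variable {b : ℕ}

section general

variable {k : ℕ} (M : Machine k b)

theorem conf_add (s t : ℕ) : M.conf (s + t) = M.step^[t] (M.conf s) := by
  unfold conf
  rw [add_comm, Function.iterate_add_apply]

theorem ot_eq_of_conf {i j : ℕ} (h : M.conf i = M.conf j) (s : ℕ) : M.ot (i + s) = M.ot (j + s) := by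
  unfold ot
  rw [M.conf_add, M.conf_add, h]

/-- configurations do not come back -/
theorem conf_ne (a : ℕ → Fin b) (ha : ∀ i d, M.ot i = some d → a (dg M.ot i) = d) (n m : ℕ)
    (hNR : ∀ p q, p < q → q ≤ n → ∃ t, t < m ∧ a (p + t) ≠ a (q + t)) (hm : 1 ≤ m)
    {T : ℕ} (hT : n + m ≤ (M.output T).length) {i j : ℕ} (hij : i < j)
    (hj : (M.output j).length ≤ n) : M.conf i ≠ M.conf j := by
  intro h
  rw [M.length_output] at hT hj
  have hjT : j < T := by
    by_contra h1
    have := dg_mono M.ot (show T ≤ j by omega)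
    omega
  have hout : ∀ s, s < T - j → M.ot (i + s) = M.ot (j + s) := fun s _ => M.ot_eq_of_conf h s
  have hTj : j + (T - j) = T := by omega
  rcases Nat.eq_or_lt_of_le (dg_mono M.ot hij.le) with h1 | h1
  · have h2 : j = i + (j - i) := by omega
    have h3 := dg_none (o := M.ot) (x := i) (P := j - i) (n := T - j) (by omega)
      (by rw [← h2]; exact h1) (by rw [← h2]; exact hout)
    rw [← h2, hTj] at h3
    omega
  · obtain ⟨t, ht1, ht2⟩ := hNR _ _ h1 hj
    exact ht2 (dg_blocks ha hout t (by rw [hTj]; omega))

theorem head_succ (i : Fin k) (t : ℕ) : (M.conf (t + 1)).head i = (M.conf t).head i + M.dir i t := by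
  unfold dir
  ring

theorem dir_cases (i : Fin k) (t : ℕ) : M.dir i t = -1 ∨ M.dir i t = 0 ∨ M.dir i t = 1 := by
  unfold dir
  rw [M.conf_succ]
  show (M.conf t).head i + (M.move (M.conf t).state (M.conf t).scan i : ℤ) - (M.conf t).head i = _ ∨
    (M.conf t).head i + (M.move (M.conf t).state (M.conf t).scan i : ℤ) - (M.conf t).head i = _ ∨
    (M.conf t).head i + (M.move (M.conf t).state (M.conf t).scan i : ℤ) - (M.conf t).head i = _
  rcases M.move (M.conf t).state (M.conf t).scan i <;> simp

/-- between two moves in different directions there is a turn -/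
theorem exists_turn (i : Fin k) {u v : ℕ} (huv : u < v) (h0 : M.dir i u ≠ 0)
    (h : M.dir i v = -M.dir i u) : ∃ w, u < w ∧ w ≤ v ∧ M.Turn i w := by
  classical
  -- the first move in the other direction
  have hex : ∃ w, u < w ∧ M.dir i w = -M.dir i u := ⟨v, huv, h⟩
  set w := Nat.find hex with hw
  have hw1 : u < w ∧ M.dir i w = -M.dir i u := Nat.find_spec hex
  have hwv : w ≤ v := Nat.find_min' hex ⟨huv, h⟩
  refine ⟨w, hw1.1, hwv, by rw [hw1.2]; omega, ?_⟩
  -- the last nonzero move before w
  have hne : ((range w).filter fun s => M.dir i s ≠ 0).Nonempty :=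
    ⟨u, mem_filter.2 ⟨mem_range.2 hw1.1, h0⟩⟩
  obtain ⟨s, hs, hmax⟩ := exists_max_image _ (fun s => s) hne
  rw [mem_filter, mem_range] at hs
  refine ⟨s, hs.1, ?_, ?_⟩
  · have hus : u ≤ s := hmax u (mem_filter.2 ⟨mem_range.2 hw1.1, h0⟩)
    rw [hw1.2, neg_neg]
    rcases Nat.eq_or_lt_of_le hus with h1 | h1
    · rw [h1]
    · by_contra h2
      have h3 : M.dir i s ≠ -M.dir i u := fun h3 => Nat.find_min hex hs.1 ⟨h1, h3⟩
      have h4 := M.dir_cases i s
      have h5 := M.dir_cases i u
      have h6 := hs.2
      omega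
  · intro x hx1 hx2
    by_contra h1
    have := hmax x (mem_filter.2 ⟨mem_range.2 hx2, h1⟩)
    omega

/-- without turns the head moves monotonically -/
theorem mono_of_no_turn (i : Fin k) {s t : ℕ} (h : ∀ u, s ≤ u → u < t → ¬ M.Turn i u) :
    (∀ x y, s ≤ x → x ≤ y → y ≤ t → (M.conf x).head i ≤ (M.conf y).head i) ∨
    (∀ x y, s ≤ x → x ≤ y → y ≤ t → (M.conf y).head i ≤ (M.conf x).head i) := by
  have hcase : (∀ u, s ≤ u → u < t → 0 ≤ M.dir i u) ∨ (∀ u, s ≤ u → u < t → M.dir i u ≤ 0) := by
    by_contra hc
    push Not at hc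
    obtain ⟨⟨u, hu1, hu2, hu3⟩, ⟨v, hv1, hv2, hv3⟩⟩ := hc
    have h5 := M.dir_cases i u
    have h6 := M.dir_cases i v
    rcases lt_trichotomy u v with h1 | h1 | h1
    · obtain ⟨w, hw1, hw2, hw3⟩ := M.exists_turn i h1 (by omega) (by omega)
      exact h w (by omega) (by omega) hw3
    · rw [h1] at hu3
      omega
    · obtain ⟨w, hw1, hw2, hw3⟩ := M.exists_turn i h1 (by omega) (by omega)
      exact h w (by omega) (by omega) hw3
  rcases hcase with hc | hc
  · left
    intro x y hx hxy hy
    obtain ⟨d, rfl⟩ := Nat.exists_eq_add_of_le hxy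
    clear hxy
    induction d with
    | zero => exact le_rfl
    | succ d ih =>
      have h1 := ih (by omega)
      have h2 := hc (x + d) (by omega) (by omega)
      rw [← Nat.add_assoc, M.head_succ]
      omega
  · right
    intro x y hx hxy hy
    obtain ⟨d, rfl⟩ := Nat.exists_eq_add_of_le hxy
    clear hxy
    induction d with
    | zero => exact le_rfl
    | succ d ih =>
      have h1 := ih (by omega)
      have h2 := hc (x + d) (by omega) (by omega)
      rw [← Nat.add_assoc, M.head_succ]
      omega

end general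

variable (M : Machine 1 b)

/-- the tape changes only where the head is -/
theorem tape_const (z : ℤ) {x y : ℕ} (hxy : x ≤ y)
    (h : ∀ u, x ≤ u → u ≤ y → (M.conf u).head 0 = z) (z' : ℤ) (hz : z' ≠ z) :
    (M.conf y).tape 0 z' = (M.conf x).tape 0 z' := by
  obtain ⟨d, rfl⟩ := Nat.exists_eq_add_of_le hxy
  clear hxy
  induction d with
  | zero => rfl
  | succ d ih =>
    rw [← ih (fun u hu1 hu2 => h u hu1 (by omega)), ← Nat.add_assoc, M.conf_succ]
    show Function.update ((M.conf (x + d)).tape 0) ((M.conf (x + d)).head 0) _ z' = _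
    rw [Function.update_of_ne]
    rw [h (x + d) (by omega) (by omega)]
    exact hz

/-- a part of the run in which the head moves monotonically and no configuration comes back -/
theorem run_le {s t : ℕ} (hst : s ≤ t)
    (hmono : (∀ x y, s ≤ x → x ≤ y → y ≤ t → (M.conf x).head 0 ≤ (M.conf y).head 0) ∨
      (∀ x y, s ≤ x → x ≤ y → y ≤ t → (M.conf y).head 0 ≤ (M.conf x).head 0))
    (hne : ∀ x y, s ≤ x → x < y → y ≤ t → M.conf x ≠ M.conf y) :
    t - s + 1 ≤ Fintype.card M.Q * Fintype.card M.Γ * M.cells 0 t := by
  classical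
  have h1 : (Icc s t).card ≤ (Fintype.card M.Q * Fintype.card M.Γ) * ((range (t + 1)).image fun s =>
      (M.conf s).head 0).card := by
    refine card_le_mul_card_image_of_maps_to (f := fun u => (M.conf u).head 0) ?_ _ ?_
    · intro u hu
      exact mem_image_of_mem (fun s => (M.conf s).head 0)
        (mem_range.2 (by have := (mem_Icc.1 hu).2; omega))
    · intro z _
      rw [← Fintype.card_prod, ← Finset.card_univ]
      refine card_le_card_of_injOn (fun u => ((M.conf u).state, (M.conf u).tape 0 z))
        (fun _ _ => mem_coe.2 (mem_univ _)) ?_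
      have key : ∀ x y, x ∈ (Icc s t).filter (fun u => (M.conf u).head 0 = z) →
          y ∈ (Icc s t).filter (fun u => (M.conf u).head 0 = z) → x < y →
          (M.conf x).state = (M.conf y).state →
          (M.conf x).tape 0 z = (M.conf y).tape 0 z → False := by
        intro x y hx hy hxy h2 h3
        rw [mem_filter, mem_Icc] at hx hy
        have h4 : ∀ u, x ≤ u → u ≤ y → (M.conf u).head 0 = z := by
          intro u hu1 hu2
          rcases hmono with hm | hm
          · have h5 := hm x u hx.1.1 hu1 (by omega)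
            have h6 := hm u y (by omega) hu2 hy.1.2
            have h7 := hx.2
            have h8 := hy.2
            omega
          · have h5 := hm x u hx.1.1 hu1 (by omega)
            have h6 := hm u y (by omega) hu2 hy.1.2
            have h7 := hx.2
            have h8 := hy.2
            omega
        apply hne x y hx.1.1 hxy hy.1.2
        have e1 : (M.conf x).head = (M.conf y).head := by
          funext i
          rw [Subsingleton.elim i 0, hx.2, hy.2]
        have e2 : (M.conf x).tape = (M.conf y).tape := by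
          funext i z'
          rw [Subsingleton.elim i 0]
          by_cases hz : z' = z
          · rw [hz]; exact h3
          · exact (M.tape_const z hxy.le h4 z' hz).symm
        rcases hcx : M.conf x with ⟨a1, a2, a3⟩
        rcases hcy : M.conf y with ⟨b1, b2, b3⟩
        rw [hcx, hcy] at h2 e1 e2
        simp only at h2 e1 e2
        rw [h2, e1, e2]
      intro x hx y hy hxy
      rw [Prod.mk.injEq] at hxy
      rcases lt_trichotomy x y with h2 | h2 | h2
      · exact absurd (key x y (mem_coe.1 hx) (mem_coe.1 hy) h2 hxy.1 hxy.2) not_false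
      · exact h2
      · exact absurd (key y x (mem_coe.1 hy) (mem_coe.1 hx) h2 hxy.1.symm hxy.2.symm) not_false
  rw [Nat.card_Icc] at h1
  have h2 : M.cells 0 t = ((range (t + 1)).image fun s => (M.conf s).head 0).card := rfl
  rw [h2]
  omega

end Pool.Agent.K9h4.HS.Machine
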