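import Pool.Agent.K9h4.HS.Turns
import Pool.Agent.K9h4.HS.Main

/-!
One-tape machines which write algebraic irrational numbers in real time turn often.
-/

set_option autoImplicit false

namespace Pool.Agent.K9h4.HS

open Finset Filter

/-- for large `n` the digits of one of the numbers do not repeat -/
theorem exists_nr (b : ℕ) (hb : 2 ≤ b) (r : ℕ) (y : Fin r → ℝ) (c : Fin r → ℤ)
    (halg : IsAlgebraic ℚ (∑ l, (c l : ℝ) * y l)) (hirr : Irrational (∑ l, (c l : ℝ) * y l)) :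
    ∀ᶠ n : ℕ in atTop, ∃ l, ∀ p q, p < q → q ≤ n →
      ∃ t, t < r * n ∧ Machine.fdg hb (y l) (p + t) ≠ Machine.fdg hb (y l) (q + t) := by
  obtain ⟨w0, hw0⟩ := no_common_scale b hb r y c halg hirr 1
  filter_upwards [eventually_ge_atTop w0] with n hn
  obtain ⟨l, hl⟩ := not_forall.1 (hw0 n hn n (by omega))
  refine ⟨l, fun p q hpq hq => ?_⟩
  have hr : 1 ≤ r := by
    have := l.2
    omega
  by_contra h2
  apply hl
  refine ⟨p, q, hpq, hq, fun t ht => ?_⟩
  by_contra h3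
  apply h2
  refine ⟨t, ?_, fun h4 => h3 ?_⟩
  · have h6 : (r - 1) * n + n = r * n := by
      conv_rhs => rw [show r = (r - 1) + 1 by omega]
      ring
    omega
  have h5 : ∀ i : ℕ, Pool.Agent.Y413.DG.dg b (y l) i = ((Machine.fdg hb (y l) i : ℕ) : ℤ) :=
    fun i => (Machine.fdg_eq hb (y l) i).symm
  rw [h5, h5, h4]

namespace Machine

section general

variable {k b : ℕ} (M : Machine k b)

theorem ot_digits (hb : 2 ≤ b) {y : ℝ} (hw : M.Writes y) (i : ℕ) (d : Fin b) (hi : M.ot i = some d) :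
    fdg hb y (dg M.ot i) = d := by
  have h2 := hw.1 (i + 1) _ d (M.output_get i _ d hi rfl)
  rw [← fdg_eq hb] at h2
  apply Fin.ext
  have h3 : ((d : ℕ) : ℤ) = ((fdg hb y (dg M.ot i) : ℕ) : ℤ) := h2
  omega

theorem turns_mono (i : Fin k) : Monotone (M.turns i) := by
  intro s t hst
  unfold turns
  apply Set.ncard_le_ncard
  · intro x hx
    exact ⟨lt_of_lt_of_le hx.1 hst, hx.2⟩
  · exact (Set.finite_lt_nat t).subset fun x hx => hx.1

theorem turns_step (i : Fin k) {s t : ℕ} (h : ∃ u, s ≤ u ∧ u < t ∧ M.Turn i u) :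
    M.turns i s + 1 ≤ M.turns i t := by
  obtain ⟨u, hu1, hu2, hu3⟩ := h
  unfold turns
  have h1 : u ∉ {x | x < s ∧ M.Turn i x} := fun h => absurd h.1 (by omega)
  rw [← Set.ncard_insert_of_notMem h1 ((Set.finite_lt_nat s).subset fun x hx => hx.1)]
  apply Set.ncard_le_ncard
  · intro x hx
    rcases hx with rfl | hx
    · exact ⟨hu2, hu3⟩
    · exact ⟨by have := hx.1; omega, hx.2⟩
  · exact (Set.finite_lt_nat t).subset fun x hx => hx.1

theorem turns_many (i : Fin k) {t0 t1 L : ℕ}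
    (h : ∀ s, s + L ≤ t1 → ∃ u, s ≤ u ∧ u < s + L ∧ M.Turn i u) :
    ∀ q, t0 + q * L ≤ t1 → M.turns i t0 + q ≤ M.turns i (t0 + q * L) := by
  intro q
  induction q with
  | zero => intro _; simp
  | succ q ih =>
    intro hq
    have h1 := ih (by rw [add_mul] at hq; omega)
    have h2 := M.turns_step i (h (t0 + q * L) (by rw [add_mul] at hq; omega))
    have h3 : t0 + (q + 1) * L = t0 + q * L + L := by ring
    rw [h3]
    omega

theorem cells_mono (i : Fin k) : Monotone (M.cells i) := by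
  intro s t hst
  unfold cells
  exact card_le_card (image_subset_image (range_mono (by omega)))

theorem one_le_of_realTime {C : ℕ} (h : M.RealTime C) : 1 ≤ C := by
  by_contra h1
  have h2 := h 1
  have h3 := M.dg_le_self (C * 1)
  omega

end general

variable {b : ℕ} (M : Machine 1 b)

/-- the constant -/
noncomputable def tc (r C : ℕ) : ℝ :=
  (Fintype.card M.Q * Fintype.card M.Γ : ℕ) * (17 * (C * (r + 1)) *
    (1 + Real.log (Fintype.card M.Q + 1)))

theorem tc_nonneg (r C : ℕ) : 0 ≤ M.tc r C := by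
  have : 0 ≤ Real.log ((Fintype.card M.Q : ℝ) + 1) := by
    have h := Real.log_natCast_nonneg (Fintype.card M.Q + 1)
    push_cast at h
    exact h
  unfold tc
  positivity

/-- parts without turns are short -/
theorem no_turn_le (hb : 2 ≤ b) {y : ℝ} (hw : M.Writes y) {C : ℕ} (hC : M.RealTime C) {r n : ℕ}
    (hr : 1 ≤ r) (hn : 1 ≤ n)
    (hNR : ∀ p q, p < q → q ≤ n → ∃ t, t < r * n ∧ fdg hb y (p + t) ≠ fdg hb y (q + t))
    {s t : ℕ} (hst : s ≤ t) (ht : t ≤ n) (h : ∀ u, s ≤ u → u < t → ¬ M.Turn 0 u) :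
    ((t - s + 1 : ℕ) : ℝ) * Real.log n ≤ M.tc r C * n := by
  have hC1 := M.one_le_of_realTime hC
  have hm : 1 ≤ r * n := Nat.mul_pos (by omega) (by omega)
  have hT : n + r * n ≤ (M.output (C * ((r + 1) * n))).length := by
    have := hC ((r + 1) * n)
    rw [add_mul, one_mul] at this ⊢
    omega
  have hτ : ∀ x, x ≤ n → (M.output x).length ≤ n := fun x hx => (M.dg_le_self x).trans hx
  have h1 := M.run_le hst (M.mono_of_no_turn 0 h) (fun x y' _ hxy hy' =>
    M.conf_ne (fdg hb y) (M.ot_digits hb hw) n (r * n) hNR hm hT hxy (hτ y' (by omega)))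
  have h2 := M.cells_mono 0 ht
  have h3 := M.tape_bound 0 (fdg hb y) (M.ot_digits hb hw) n (r * n) hm hNR (hτ n le_rfl) hT
  have h4 := M.rests_one 0 (C * ((r + 1) * n))
  have h5 : Real.log (M.rests 0 (C * ((r + 1) * n)) + 1) ≤
      Real.log ((Fintype.card M.Q : ℝ) + 1) := by
    apply Real.log_le_log (by positivity)
    have : (M.rests 0 (C * ((r + 1) * n)) : ℝ) ≤ Fintype.card M.Q := by exact_mod_cast h4
    linarith
  have h6 : Real.log n ≤ Real.log (C * ((r + 1) * n) : ℕ) := by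
    apply Real.log_le_log (by exact_mod_cast hn)
    have : n ≤ C * ((r + 1) * n) := by nlinarith
    exact_mod_cast this
  have hX : 0 ≤ 1 + Real.log ((Fintype.card M.Q : ℝ) + 1) := by
    have h := Real.log_natCast_nonneg (Fintype.card M.Q + 1)
    push_cast at h
    linarith
  have h7 : (M.cells 0 n : ℝ) * Real.log n ≤
      17 * (C * (r + 1)) * (1 + Real.log (Fintype.card M.Q + 1)) * n := by
    calc (M.cells 0 n : ℝ) * Real.log n
        ≤ M.cells 0 n * Real.log (C * ((r + 1) * n) : ℕ) :=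
          mul_le_mul_of_nonneg_left h6 (Nat.cast_nonneg _)
      _ ≤ 17 * (C * ((r + 1) * n) : ℕ) *
          (1 + Real.log (M.rests 0 (C * ((r + 1) * n)) + 1)) := h3
      _ ≤ 17 * (C * ((r + 1) * n) : ℕ) * (1 + Real.log ((Fintype.card M.Q : ℝ) + 1)) := by
          apply mul_le_mul_of_nonneg_left _ (by positivity)
          linarith
      _ = _ := by push_cast; ring
  have hlog : 0 ≤ Real.log (n : ℝ) := Real.log_natCast_nonneg n
  have h8 : ((t - s + 1 : ℕ) : ℝ) ≤ (Fintype.card M.Q * Fintype.card M.Γ : ℕ) * M.cells 0 n := by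
    have h9 : t - s + 1 ≤ Fintype.card M.Q * Fintype.card M.Γ * M.cells 0 n :=
      h1.trans (Nat.mul_le_mul_left _ h2)
    exact_mod_cast h9
  calc ((t - s + 1 : ℕ) : ℝ) * Real.log n
      ≤ ((Fintype.card M.Q * Fintype.card M.Γ : ℕ) * M.cells 0 n) * Real.log n :=
        mul_le_mul_of_nonneg_right h8 hlog
    _ = (Fintype.card M.Q * Fintype.card M.Γ : ℕ) * (M.cells 0 n * Real.log n) := by ring
    _ ≤ (Fintype.card M.Q * Fintype.card M.Γ : ℕ) *
        (17 * (C * (r + 1)) * (1 + Real.log (Fintype.card M.Q + 1)) * n) :=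
        mul_le_mul_of_nonneg_left h7 (Nat.cast_nonneg _)
    _ = M.tc r C * n := by unfold tc; ring

/-- many turns between `n / 2` and `n` -/
theorem turns_scale (hb : 2 ≤ b) {y : ℝ} (hw : M.Writes y) {C : ℕ} (hC : M.RealTime C) {r i : ℕ}
    (hr : 1 ≤ r) (K : ℝ) (hK : M.tc r C ≤ K) (hK1 : 1 ≤ K)
    (hi : 4 * K ≤ Real.log ((2 ^ (i + 1) : ℕ) : ℝ))
    (hNR : ∀ p q, p < q → q ≤ 2 ^ (i + 1) → ∃ t, t < r * 2 ^ (i + 1) ∧
      fdg hb y (p + t) ≠ fdg hb y (q + t)) :
    (M.turns 0 (2 ^ i) : ℝ) + Real.log ((2 ^ (i + 1) : ℕ) : ℝ) / (4 * K) ≤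
      M.turns 0 (2 ^ (i + 1)) := by
  set n : ℕ := 2 ^ (i + 1) with hn
  have hn1 : 1 ≤ n := Nat.one_le_two_pow
  have hn2 : n = 2 * 2 ^ i := by rw [hn, pow_succ]; ring
  have hn0 : (0 : ℝ) < n := by exact_mod_cast hn1
  set y' := Real.log (n : ℝ) with hy'
  have hy1 : 4 ≤ y' := by linarith
  have hyn : y' ≤ n := by
    have := Real.log_le_sub_one_of_pos hn0
    linarith
  set L := ⌊K * n / y'⌋₊ with hL
  have hz : 1 ≤ K * n / y' := by
    rw [le_div_iff₀ (by linarith)]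
    nlinarith
  have hL1 : 1 ≤ L := Nat.le_floor (by exact_mod_cast hz)
  have hLle : (L : ℝ) ≤ K * n / y' := Nat.floor_le (by positivity)
  have hLlt : K * n / y' < L + 1 := Nat.lt_floor_add_one _
  have hblock : ∀ s, s + L ≤ n → ∃ u, s ≤ u ∧ u < s + L ∧ M.Turn 0 u := by
    intro s hs
    by_contra hc
    push Not at hc
    have h1 := M.no_turn_le hb hw hC hr hn1 hNR (Nat.le_add_right s L) hs hc
    rw [show s + L - s + 1 = L + 1 by omega] at h1
    push_cast at h1
    rw [div_lt_iff₀ (by linarith)] at hLlt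
    have h2 : M.tc r C * n ≤ K * n := mul_le_mul_of_nonneg_right hK hn0.le
    linarith
  set q := 2 ^ i / L with hq
  have hqL : q * L ≤ 2 ^ i := Nat.div_mul_le_self _ _
  have h1 := M.turns_many 0 (t0 := 2 ^ i) hblock q (by omega)
  have h2 := M.turns_mono 0 (show 2 ^ i + q * L ≤ n by omega)
  have h3 : (M.turns 0 (2 ^ i) : ℝ) + q ≤ M.turns 0 n := by exact_mod_cast h1.trans h2
  have h4 : y' / (4 * K) ≤ q := by
    have h5 : (2 : ℝ) ^ i < (q + 1) * L := by
      have h6 : 2 ^ i < (q + 1) * L := by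
        have h7 := Nat.div_add_mod (2 ^ i) L
        have h8 := Nat.mod_lt (2 ^ i) (show 0 < L by omega)
        rw [← hq] at h7
        nlinarith
      exact_mod_cast h6
    have h6 : (n : ℝ) = 2 * 2 ^ i := by rw [hn2]; push_cast; ring
    have h7 : ((q : ℝ) + 1) * L ≤ (q + 1) * (K * n / y') :=
      mul_le_mul_of_nonneg_left hLle (by positivity)
    have h8 : (n : ℝ) / 2 * y' < (q + 1) * (K * n) := by
      have h9 : (n : ℝ) / 2 < (q + 1) * (K * n) / y' := by
        rw [mul_div_assoc]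
        linarith
      rwa [lt_div_iff₀ (by linarith)] at h9
    have h9 : y' / 2 < (q + 1) * K := by
      by_contra h10
      push Not at h10
      have := mul_le_mul_of_nonneg_right h10 hn0.le
      linarith
    rw [div_le_iff₀ (by linarith)]
    linarith
  linarith

end Machine

/-- the sum over the scales -/
theorem dyadic (r : ℕ) (f : Fin r → ℕ → ℝ) (hf : ∀ l, Monotone (f l)) (hf0 : ∀ l t, 0 ≤ f l t)
    (δ : ℝ) (hδ : 0 < δ)
    (h : ∀ᶠ i : ℕ in atTop, ∃ l, f l (2 ^ i) + δ * (i + 1) ≤ f l (2 ^ (i + 1))) :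
    ∃ δ' : ℝ, 0 < δ' ∧ ∀ᶠ t : ℕ in atTop, ∃ l, δ' * Real.log t ^ 2 ≤ f l t := by
  obtain ⟨i0, hi0⟩ := eventually_atTop.1 h
  obtain ⟨l0, -⟩ := hi0 i0 le_rfl
  have hr : (0 : ℝ) < r := by
    have := l0.2
    exact_mod_cast (by omega : 0 < r)
  set F : ℕ → ℝ := fun t => ∑ l, f l t with hF
  have hFm : Monotone F := fun s t hst => Finset.sum_le_sum fun l _ => hf l hst
  have hF0 : ∀ t, 0 ≤ F t := fun t => Finset.sum_nonneg fun l _ => hf0 l t
  have hstep : ∀ i, i0 ≤ i → F (2 ^ i) + δ * (i + 1) ≤ F (2 ^ (i + 1)) := by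
    intro i hi
    obtain ⟨l, hl⟩ := hi0 i hi
    have h1 : 2 ^ i ≤ 2 ^ (i + 1) := Nat.pow_le_pow_right (by omega) (by omega)
    simp only [hF]
    have e1 := Finset.add_sum_erase Finset.univ (fun l => f l (2 ^ i)) (Finset.mem_univ l)
    have e2 := Finset.add_sum_erase Finset.univ (fun l => f l (2 ^ (i + 1))) (Finset.mem_univ l)
    rw [← e1, ← e2]
    have h2 : ∑ l' ∈ Finset.univ.erase l, f l' (2 ^ i) ≤
        ∑ l' ∈ Finset.univ.erase l, f l' (2 ^ (i + 1)) :=
      Finset.sum_le_sum fun l' _ => hf l' h1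
    linarith
  have hsum : ∀ d : ℕ, δ * (((i0 + d : ℕ) : ℝ) * ((i0 + d : ℕ) + 1) / 2 -
      (i0 : ℝ) * (i0 + 1) / 2) ≤ F (2 ^ (i0 + d)) := by
    intro d
    induction d with
    | zero =>
      rw [Nat.add_zero, sub_self, mul_zero]
      exact hF0 _
    | succ d ih =>
      have h1 := hstep (i0 + d) (by omega)
      rw [← Nat.add_assoc]
      push_cast at ih h1 ⊢
      nlinarith
  refine ⟨δ / (16 * r), by positivity, ?_⟩
  filter_upwards [eventually_ge_atTop (2 ^ (2 * i0 + 2))] with t ht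
  set i := Nat.log 2 t with hi
  have ht1 : 1 ≤ t := le_trans Nat.one_le_two_pow ht
  have hi1 : 2 * i0 + 2 ≤ i := by
    rw [hi]
    exact Nat.le_log_of_pow_le (by omega) ht
  have hi2 : 2 ^ i ≤ t := Nat.pow_log_le_self 2 (by omega)
  have hi3 : t < 2 ^ (i + 1) := Nat.lt_pow_succ_log_self (by omega) t
  have hlog : Real.log t ≤ 2 * i := by
    have h1 : Real.log t ≤ Real.log ((2 : ℝ) ^ (i + 1)) := by
      apply Real.log_le_log (by exact_mod_cast ht1)
      exact_mod_cast hi3.le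
    rw [Real.log_pow] at h1
    have h2 := Real.log_two_lt_d9
    have h3 : (1 : ℝ) ≤ i := by exact_mod_cast (by omega : 1 ≤ i)
    push_cast at h1
    nlinarith
  have hlog0 : 0 ≤ Real.log (t : ℝ) := Real.log_natCast_nonneg t
  have h1 := hsum (i - i0)
  rw [show i0 + (i - i0) = i by omega] at h1
  have h2 : δ * ((i : ℝ) ^ 2 / 4) ≤ F t := by
    refine le_trans ?_ (h1.trans (hFm hi2))
    apply mul_le_mul_of_nonneg_left _ hδ.le
    have h3 : (2 : ℝ) * i0 + 2 ≤ i := by exact_mod_cast hi1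
    have h4 : (0 : ℝ) ≤ i0 := Nat.cast_nonneg _
    nlinarith
  have h3 : δ * (Real.log t ^ 2 / 16) ≤ F t := by
    refine le_trans (mul_le_mul_of_nonneg_left ?_ hδ.le) h2
    nlinarith
  by_contra hc
  push Not at hc
  have h4 : F t < ∑ _l : Fin r, δ / (16 * r) * Real.log t ^ 2 := by
    rw [hF]
    exact Finset.sum_lt_sum_of_nonempty ⟨l0, Finset.mem_univ _⟩ fun l _ => hc l
  rw [Finset.sum_const, Finset.card_univ, Fintype.card_fin, nsmul_eq_mul] at h4
  have h5 : (r : ℝ) * (δ / (16 * r) * Real.log t ^ 2) = δ * (Real.log t ^ 2 / 16) := by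
    field_simp
  linarith

/-- the main theorem about turns -/
theorem main_turns (b : ℕ) (hb : 2 ≤ b) (r : ℕ) (M : Fin r → Machine 1 b)
    (y : Fin r → ℝ) (c : Fin r → ℤ) (C : ℕ) (hw : ∀ l, (M l).Writes (y l))
    (hC : ∀ l, (M l).RealTime C)
    (halg : IsAlgebraic ℚ (∑ l, (c l : ℝ) * y l)) (hirr : Irrational (∑ l, (c l : ℝ) * y l)) :
    ∃ δ : ℝ, 0 < δ ∧ ∀ᶠ t : ℕ in atTop, ∃ l, δ * Real.log t ^ 2 ≤ (M l).turns 0 t := by
  set K : ℝ := 1 + ∑ l, (M l).tc r C with hK
  have hK0 : ∀ l, (M l).tc r C ≤ K := by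
    intro l
    have h1 := Finset.single_le_sum (f := fun l => (M l).tc r C) (fun l _ => (M l).tc_nonneg r C)
      (Finset.mem_univ l)
    linarith
  have hK1 : 1 ≤ K := by
    have h1 := Finset.sum_nonneg (s := Finset.univ) (f := fun l => (M l).tc r C)
      (fun l _ => (M l).tc_nonneg r C)
    linarith
  have hl2 : 0 < Real.log 2 := Real.log_pos (by norm_num)
  refine dyadic r (fun l t => ((M l).turns 0 t : ℝ))
    (fun l s t hst => Nat.cast_le.2 ((M l).turns_mono 0 hst)) (fun l t => Nat.cast_nonneg _)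
    (Real.log 2 / (4 * K)) (by positivity) ?_
  have hnr := exists_nr b hb r y c halg hirr
  have htend : Tendsto (fun i : ℕ => 2 ^ (i + 1)) atTop atTop :=
    (tendsto_pow_atTop_atTop_of_one_lt (by omega : 1 < 2)).comp (tendsto_add_atTop_nat 1)
  filter_upwards [htend.eventually hnr, eventually_ge_atTop ⌈4 * K / Real.log 2⌉₊] with i hi1 hi2
  obtain ⟨l, hl⟩ := hi1
  have hr : 1 ≤ r := by
    have := l.2
    omega
  have hlog : Real.log ((2 ^ (i + 1) : ℕ) : ℝ) = (i + 1) * Real.log 2 := by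
    push_cast
    rw [Real.log_pow]
    push_cast
    ring
  have hi3 : 4 * K ≤ Real.log ((2 ^ (i + 1) : ℕ) : ℝ) := by
    rw [hlog]
    have h1 := (Nat.le_ceil (4 * K / Real.log 2)).trans (Nat.cast_le.2 hi2)
    rw [div_le_iff₀ hl2] at h1
    nlinarith
  refine ⟨l, ?_⟩
  have h1 := (M l).turns_scale hb (hw l) (hC l) hr K (hK0 l) hK1 hi3 hl
  rw [hlog] at h1
  calc ((M l).turns 0 (2 ^ i) : ℝ) + Real.log 2 / (4 * K) * (i + 1)
      = (M l).turns 0 (2 ^ i) + (i + 1) * Real.log 2 / (4 * K) := by ring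
    _ ≤ _ := h1

end Pool.Agent.K9h4.HS
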